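import Mathlib

/-!
MP_143e28_ag, project HL (helper22): arithmetic.

`exists_j`: `n ≥ 3` odd, prime to `a`, `a` odd: there is `0 < j < n` prime to `n` with `n ∣ 2 j + a` (`j = - a / 2` modulo `n`: for instance `j = ((n - 1) / 2 * a + n * i) % n`; or `j = (b n - a) / 2` for
the odd `b` with ... ; `ZMod.unitOfCoprime`, or `Nat.ModEq`).  `g = 0 mod a`, `n = 2 g / a + 1`: `(n - 1) a = 2 g`, `2 n a = 4 g + 2 a`.
`obstr`: `β` rational, `m g ≥ 4 g + 4`, `m g ≥ 8 g + 12` if `3 ∣ g`, `m g ≥ 4 g + 2 a` for every odd divisor `a` of `g` prime to `2 g / a + 1` (values in `ℕ∞`), and `m g = 4 g + β` for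
infinitely many `g`: then `β ≥ 4`, and for infinitely many even `g`, not divisible by 3, every odd divisor `a` of `g` with `2 a > β` is not prime to `2 g / a + 1`.  Proof: for `g` in the set with `g > |β| + 8`:
`3 ∣ g` gives `4 g + β ≥ 8 g + 12`, impossible; so `3 ∤ g`; `g` odd: `a = g` is an odd divisor of `g`, `2 g / g + 1 = 3` is prime to `g`: `4 g + β ≥ 6 g`, impossible.
-/

set_option autoImplicit false

namespace Pool.Agent.Helper22.HL

theorem exists_j {n a : ℕ} (hn : Odd n) (hn3 : 3 ≤ n) (ha : Nat.Coprime n a) :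
    ∃ j t : ℕ, 0 < j ∧ j < n ∧ Nat.Coprime n j ∧ 2 * j + a = n * t := by
  obtain ⟨k, hk⟩ := hn
  have hnk : Nat.Coprime n k := by
    rw [hk]
    have h1 : Nat.Coprime (1 + 2 * k) k := by simp
    rwa [add_comm] at h1
  have hcop : Nat.Coprime n ((k * a) % n) := by
    have h1 : Nat.Coprime n (k * a) := Nat.Coprime.mul_right hnk ha
    unfold Nat.Coprime at h1 ⊢
    rw [← h1, Nat.gcd_comm n (k * a), Nat.gcd_comm n (k * a % n)]
    exact (Nat.mod_modEq (k * a) n).gcd_eq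
  have hd : n ∣ 2 * ((k * a) % n) + a := by
    have h1 : 2 * ((k * a) % n) + a ≡ 2 * (k * a) + a [MOD n] :=
      ((Nat.mod_modEq (k * a) n).mul_left 2).add_right a
    have h2 : 2 * (k * a) + a = n * a := by
      rw [hk]
      ring
    rw [h2] at h1
    exact (Nat.modEq_zero_iff_dvd.1 (h1.trans (Nat.modEq_zero_iff_dvd.2 (dvd_mul_right n a))))
  obtain ⟨t, ht⟩ := hd
  refine ⟨(k * a) % n, t, ?_, Nat.mod_lt _ (by omega), hcop, ht⟩
  rcases Nat.eq_zero_or_pos ((k * a) % n) with h | h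
  · rw [h, Nat.coprime_zero_right] at hcop
    omega
  · exact h

theorem deg_data {g a : ℕ} (hg : 2 ≤ g) (ha : Odd a) (hag : a ∣ g) :
    Odd (2 * g / a + 1) ∧ 3 ≤ 2 * g / a + 1 ∧ (2 * g / a + 1 - 1) * a = 2 * g ∧
      2 * ((2 * g / a + 1) * a) = 4 * g + 2 * a := by
  obtain ⟨c, rfl⟩ := hag
  have ha0 : 0 < a := ha.pos
  have hc0 : 0 < c := by
    rcases Nat.eq_zero_or_pos c with h | h
    · rw [h, Nat.mul_zero] at hg
      omega
    · exact h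
  have h1 : 2 * (a * c) / a = 2 * c := by
    have h2 : 2 * (a * c) = a * (2 * c) := by ring
    rw [h2, Nat.mul_div_cancel_left _ ha0]
  rw [h1]
  refine ⟨⟨c, rfl⟩, by omega, ?_, by ring⟩
  rw [Nat.add_sub_cancel]
  ring

private theorem Arith_cast {mu : ℕ → ℕ∞} {g m c : ℕ} {β : ℚ} (h : ((c : ℕ) : ℕ∞) ≤ mu g)
    (hm : mu g = m) (hb : 4 * (g : ℚ) + β = m) : (c : ℚ) ≤ 4 * g + β := by
  rw [hm] at h
  have h1 : c ≤ m := by exact_mod_cast h
  rw [hb]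
  exact_mod_cast h1

theorem obstr (mu : ℕ → ℕ∞) (h1 : ∀ g : ℕ, 2 ≤ g → ((4 * g + 4 : ℕ) : ℕ∞) ≤ mu g)
    (h2 : ∀ g : ℕ, 2 ≤ g → 3 ∣ g → ((8 * g + 12 : ℕ) : ℕ∞) ≤ mu g)
    (h3 : ∀ g : ℕ, 2 ≤ g → ∀ a : ℕ, Odd a → a ∣ g → Nat.Coprime a (2 * g / a + 1) →
      ((4 * g + 2 * a : ℕ) : ℕ∞) ≤ mu g) (β : ℚ)
    (hβ : {g : ℕ | 2 ≤ g ∧ ∃ m : ℕ, mu g = m ∧ 4 * (g : ℚ) + β = m}.Infinite) :
    4 ≤ β ∧ {g : ℕ | Even g ∧ ¬ 3 ∣ g ∧ ∀ a : ℕ, Odd a → a ∣ g → β < 2 * (a : ℚ) →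
      ¬ Nat.Coprime a (2 * g / a + 1)}.Infinite := by
  constructor
  · obtain ⟨g, hg, m, hm, hb⟩ := hβ.nonempty
    have h4 := Arith_cast (h1 g hg) hm hb
    push_cast at h4
    linarith
  · obtain ⟨B, hB⟩ := exists_nat_gt β
    have hS : ({g : ℕ | 2 ≤ g ∧ ∃ m : ℕ, mu g = m ∧ 4 * (g : ℚ) + β = m} \
        (Set.Iic B)).Infinite := hβ.sdiff (Set.finite_Iic B)
    refine hS.mono ?_
    rintro g ⟨⟨hg, m, hm, hb⟩, hgB⟩
    have hgB' : (B : ℚ) < g := by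
      rw [Set.mem_Iic, not_le] at hgB
      exact_mod_cast hgB
    have hg0 : (0 : ℚ) ≤ g := Nat.cast_nonneg _
    have hcop : ∀ a : ℕ, Odd a → a ∣ g → β < 2 * (a : ℚ) → ¬ Nat.Coprime a (2 * g / a + 1) := by
      intro a ha hag hba hc
      have h4 := Arith_cast (h3 g hg a ha hag hc) hm hb
      push_cast at h4
      linarith
    have h3g : ¬ 3 ∣ g := by
      intro h
      have h4 := Arith_cast (h2 g hg h) hm hb
      push_cast at h4
      linarith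
    refine ⟨?_, h3g, hcop⟩
    rw [← Nat.not_odd_iff_even]
    intro ho
    refine hcop g ho dvd_rfl (by linarith) ?_
    rw [Nat.mul_div_cancel _ (by omega)]
    exact ((Nat.Prime.coprime_iff_not_dvd Nat.prime_three).2 h3g).symm

end Pool.Agent.Helper22.HL
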