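import Pool.Agent.Helper22.HL.Arith

/-!
MP_143e28_ag, project HL (helper22): `obstr` with the powers of 2 excluded.
-/

set_option autoImplicit false

namespace Pool.Agent.Helper22.HL

private theorem Arith2_cast {mu : ℕ → ℕ∞} {g m c : ℕ} {β : ℚ} (h : ((c : ℕ) : ℕ∞) ≤ mu g)
    (hm : mu g = m) (hb : 4 * (g : ℚ) + β = m) : (c : ℚ) ≤ 4 * g + β := by
  rw [hm] at h
  have h1 : c ≤ m := by exact_mod_cast h
  rw [hb]
  exact_mod_cast h1

theorem obstr2 (mu : ℕ → ℕ∞) (h1 : ∀ g : ℕ, 2 ≤ g → ((4 * g + 4 : ℕ) : ℕ∞) ≤ mu g)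
    (h2 : ∀ g : ℕ, 2 ≤ g → 3 ∣ g → ((8 * g + 12 : ℕ) : ℕ∞) ≤ mu g)
    (h3 : ∀ g : ℕ, 2 ≤ g → ∀ a : ℕ, Odd a → a ∣ g → Nat.Coprime a (2 * g / a + 1) →
      ((4 * g + 2 * a : ℕ) : ℕ∞) ≤ mu g)
    (h4 : ∀ g e : ℕ, 1 ≤ e → g = 2 ^ e → ((8 * g ^ 2 * (2 * g + 1) : ℕ) : ℕ∞) ≤ mu g) (β : ℚ)
    (hβ : {g : ℕ | 2 ≤ g ∧ ∃ m : ℕ, mu g = m ∧ 4 * (g : ℚ) + β = m}.Infinite) :
    4 ≤ β ∧ {g : ℕ | Even g ∧ ¬ 3 ∣ g ∧ (∀ e : ℕ, g ≠ 2 ^ e) ∧ ∀ a : ℕ, Odd a → a ∣ g → β < 2 * (a : ℚ) →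
      ¬ Nat.Coprime a (2 * g / a + 1)}.Infinite := by
  constructor
  · obtain ⟨g, hg, m, hm, hb⟩ := hβ.nonempty
    have h5 := Arith2_cast (h1 g hg) hm hb
    push_cast at h5
    linarith
  · obtain ⟨B, hB⟩ := exists_nat_gt β
    have hS : ({g : ℕ | 2 ≤ g ∧ ∃ m : ℕ, mu g = m ∧ 4 * (g : ℚ) + β = m} \
        (Set.Iic B)).Infinite := hβ.sdiff (Set.finite_Iic B)
    refine hS.mono ?_
    rintro g ⟨⟨hg, m, hm, hb⟩, hgB⟩
    have hgB' : (B : ℚ) < g := by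
      rw [Set.mem_Iic, not_le] at hgB
      exact_mod_cast hgB
    have hg0 : (0 : ℚ) ≤ g := Nat.cast_nonneg _
    have hcop : ∀ a : ℕ, Odd a → a ∣ g → β < 2 * (a : ℚ) → ¬ Nat.Coprime a (2 * g / a + 1) := by
      intro a ha hag hba hc
      have h5 := Arith2_cast (h3 g hg a ha hag hc) hm hb
      push_cast at h5
      linarith
    have h3g : ¬ 3 ∣ g := by
      intro h
      have h5 := Arith2_cast (h2 g hg h) hm hb
      push_cast at h5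
      linarith
    refine ⟨?_, h3g, ?_, hcop⟩
    · rw [← Nat.not_odd_iff_even]
      intro ho
      refine hcop g ho dvd_rfl (by linarith) ?_
      rw [Nat.mul_div_cancel _ (by omega)]
      exact ((Nat.Prime.coprime_iff_not_dvd Nat.prime_three).2 h3g).symm
    · intro e he
      have he1 : 1 ≤ e := by
        rcases Nat.eq_zero_or_pos e with h | h
        · rw [h, pow_zero] at he
          omega
        · exact h
      have h5 := Arith2_cast (h4 g e he1 he) hm hb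
      push_cast at h5
      have hg2 : (2 : ℚ) ≤ g := by exact_mod_cast hg
      have h6 : (5 : ℚ) * g ≤ 8 * (g : ℚ) ^ 2 * (2 * g + 1) := by nlinarith [mul_nonneg hg0 hg0]
      linarith

end Pool.Agent.Helper22.HL
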