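import Pool.Agent.Helper54.HZ.Cover

/-!
MP_143e28_ag, project HL (helper22): lower bounds for the number of automorphisms in characteristic 2.  Definitions.
-/

set_option autoImplicit false

namespace Pool.Agent.Helper22.HL

open Polynomial Pool.Agent.Helper54.HY Pool.Agent.Helper54.HZ

/-- `(x, y, f)` presents `F` as the function field of `y ^ n = f (x)`, a cyclic cover of the line of degree `n` (prime to the
characteristic), totally ramified at every branch point (the multiplicities of the roots of `f`, and the degree of `f` if `∞` is a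
branch point, are prime to `n`); its genus is `g`: `2 g = (n - 1) (r - 2)`, `r` the number of branch points -/
structure PresC (k F : Type*) [Field k] [Field F] [Algebra k F] (n g : ℕ) (x y : F) (f : k[X]) : Prop where
  two : 2 ≤ n
  char : (n : k) ≠ 0
  trans : Transcendental k x
  gen : IntermediateField.adjoin k {x, y} = ⊤
  ne0 : f ≠ 0
  mult : ∀ a : k, f.rootMultiplicity a < n
  tot : ∀ a : k, f.eval a = 0 → Nat.Coprime n (f.rootMultiplicity a)
  inf : n ∣ f.natDegree ∨ Nat.Coprime n f.natDegree
  eqn : y ^ n = aeval x f
  genus : (n - 1) * (Nat.card (BrN n f) - 2) = 2 * g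

/-- `(x, y, f)` presents `F` as the function field of `y ^ q - y = f (x)`, `q = p ^ s`, `f` a polynomial of degree prime to the
characteristic `p`; its genus is `g`: `2 g = (q - 1) (deg f - 1)` -/
structure PresE (k F : Type*) [Field k] [Field F] [Algebra k F] (p s g : ℕ) (x y : F) (f : k[X]) : Prop where
  pos : 1 ≤ s
  trans : Transcendental k x
  gen : IntermediateField.adjoin k {x, y} = ⊤
  deg : Nat.Coprime p f.natDegree
  eqn : y ^ (p ^ s) - y = aeval x f
  genus : (p ^ s - 1) * (f.natDegree - 1) = 2 * g

/-- `F` is the function field of a curve of genus `g` over `k` (of characteristic `p`) of one of the three types: an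
Artin-Schreier cover of the line (`y ^ p - y = f (x)`), a totally ramified cyclic cover of the line of some degree prime to `p`
(`y ^ n = f (x)`), a curve `y ^ q - y = f (x)` with `q` a power of `p` and `f` a polynomial -/
def IsTri (k F : Type*) [Field k] [Field F] [Algebra k F] (p g : ℕ) : Prop :=
  (∃ (x y : F) (f : RatFunc k), PresAS k F p g x y f) ∨
  (∃ (n : ℕ) (x y : F) (f : k[X]), PresC k F n g x y f) ∨
  ∃ (s : ℕ) (x y : F) (f : k[X]), PresE k F p s g x y f

/-- the supremum (in `ℕ ∪ {∞}`) of the numbers of automorphisms of these curves -/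
noncomputable def muTri.{u} (k : Type u) [Field k] (p g : ℕ) : ℕ∞ :=
  sSup {n : ℕ∞ | ∃ (F : Type u) (_ : Field F) (_ : Algebra k F),
    IsTri k F p g ∧ n = ENat.card (F ≃ₐ[k] F)}

/-- the equation `Φ (Y) = r` over `k(X)` -/
noncomputable abbrev eqn {k : Type*} [Field k] (Φ : k[X]) (r : RatFunc k) : (RatFunc k)[X] :=
  Φ.map (algebraMap k (RatFunc k)) - C r

end Pool.Agent.Helper22.HL
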