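import Pool.Agent.Helper22.HL.Tr
import Pool.Agent.Helper54.HZ.Ord

/-!
MP_143e28_ag, project HL (helper22): the curve `y ^ 2 - y = 1 / (x ^ a + 1)` has genus `a - 1` (`a` odd, characteristic 2): `PresAS`.

`r = (X ^ a + 1)⁻¹`: `ordP P r = - ordP P (X ^ a + 1)` (`ord_inv`, `ord_poly_infty`, `ord_poly_coe` in `Helper54/HZ/Ord.lean`): it is `a ≥ 0` at `∞`, `- 1` at the `a` roots of
`X ^ a + 1 = X ^ a - 1` (simple: separable; `a` of them, `IsAlgClosed`, `card_roots`), `0` elsewhere.  The sum over the poles of `1 - ordP = 2` is `2 a`, and `2 a - 2 = 2 (a - 1)`.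
`aeval x r.num / aeval x r.denom = rat hx r` (`RatFunc.num_div_denom`, `map_div₀`, `rat_poly`; see `ASFix.lean`).
-/

set_option autoImplicit false

namespace Pool.Agent.Helper22.HL

open Polynomial Pool.Agent.Helper54.HY Pool.Agent.Helper54.HZ

private theorem GenA_coe {k : Type*} [Field k] {f : k[X]} (hf : f ≠ 0) (b : k) :
    ordP (b : OnePoint k) (algebraMap k[X] (RatFunc k) f)⁻¹ = -(f.rootMultiplicity b : ℤ) := by
  rw [ord_inv _ (RatFunc.algebraMap_ne_zero hf), ord_poly_coe]

private theorem GenA_infty {k : Type*} [Field k] {f : k[X]} (hf : f ≠ 0) :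
    ordP OnePoint.infty (algebraMap k[X] (RatFunc k) f)⁻¹ = (f.natDegree : ℤ) := by
  rw [ord_inv _ (RatFunc.algebraMap_ne_zero hf), ord_poly_infty, neg_neg]

private theorem GenA_mult {k : Type*} [Field k] {f : k[X]} (hf : f.Separable) {b : k}
    (hb : f.rootMultiplicity b ≠ 0) : f.rootMultiplicity b = 1 := by
  classical
  have h1 := nodup_roots hf
  rw [Multiset.nodup_iff_count_le_one] at h1
  have h2 := h1 b
  rw [count_roots] at h2
  omega

theorem presA {k F : Type*} [Field k] [IsAlgClosed k] [CharP k 2] [Field F] [Algebra k F] {a : ℕ}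
    (ha : Odd a) {x y : F} (hx : Transcendental k x) (hgen : IntermediateField.adjoin k {x, y} = ⊤)
    (he : aeval y (X ^ 2 - X : k[X]) = rat hx (algebraMap k[X] (RatFunc k) (X ^ a + 1))⁻¹) :
    PresAS k F 2 (a - 1) x y (algebraMap k[X] (RatFunc k) (X ^ a + 1))⁻¹ := by
  classical
  have ha0 : 1 ≤ a := ha.pos
  obtain ⟨f, hf⟩ : ∃ f : k[X], f = X ^ a + 1 := ⟨_, rfl⟩
  rw [← hf] at he ⊢
  have hf' : f = X ^ a - C (-1) := by rw [hf, C_neg, C_1, sub_neg_eq_add]
  have hdeg : f.natDegree = a := by rw [hf', natDegree_X_pow_sub_C]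
  have hf0 : f ≠ 0 := by
    intro h
    rw [h, natDegree_zero] at hdeg
    omega
  have hak : (a : k) ≠ 0 := by
    intro h
    rw [CharP.cast_eq_zero_iff k 2 a] at h
    obtain ⟨b, hb⟩ := ha
    omega
  have hsep : f.Separable := by
    rw [hf']
    exact separable_X_pow_sub_C _ hak (neg_ne_zero.2 one_ne_zero)
  have hcard : f.roots.toFinset.card = a := by
    rw [Multiset.toFinset_card_of_nodup (nodup_roots hsep), ← hdeg]
    exact splits_iff_card_roots.1 (IsAlgClosed.splits f)
  have hroot : ∀ b : k, ordP (b : OnePoint k) (algebraMap k[X] (RatFunc k) f)⁻¹ < 0 ↔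
      b ∈ f.roots.toFinset := by
    intro b
    rw [GenA_coe hf0, Multiset.mem_toFinset, ← Multiset.count_pos, count_roots]
    omega
  have hval : ∀ b : k, ordP (b : OnePoint k) (algebraMap k[X] (RatFunc k) f)⁻¹ < 0 →
      ordP (b : OnePoint k) (algebraMap k[X] (RatFunc k) f)⁻¹ = -1 := by
    intro b hb
    rw [GenA_coe hf0] at hb ⊢
    rw [GenA_mult hsep (b := b) (by omega)]
    norm_num
  have hinf : ¬ ordP OnePoint.infty (algebraMap k[X] (RatFunc k) f)⁻¹ < 0 := by
    rw [GenA_infty hf0]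
    omega
  refine ⟨hx, hgen, ?_, ?_, ?_⟩
  · intro P hP
    induction P using OnePoint.rec with
    | infty => exact absurd hP hinf
    | coe b =>
      rw [hval b hP]
      norm_num
  · have h1 : rat hx (algebraMap k[X] (RatFunc k) f)⁻¹ =
        aeval x ((algebraMap k[X] (RatFunc k) f)⁻¹).num /
          aeval x ((algebraMap k[X] (RatFunc k) f)⁻¹).denom := by
      conv_lhs => rw [← RatFunc.num_div_denom (algebraMap k[X] (RatFunc k) f)⁻¹]
      rw [map_div₀, rat_poly, rat_poly]
    rw [← h1, ← he]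
    simp
  · have hset : {P : OnePoint k | ordP P (algebraMap k[X] (RatFunc k) f)⁻¹ < 0} =
        ((f.roots.toFinset.map ⟨fun b : k => (b : OnePoint k), OnePoint.coe_injective⟩ :
          Finset (OnePoint k)) : Set (OnePoint k)) := by
      ext P
      rw [Finset.coe_map, Set.mem_image]
      constructor
      · intro hP
        induction P using OnePoint.rec with
        | infty => exact absurd hP hinf
        | coe b => exact ⟨b, (hroot b).1 hP, rfl⟩
      · rintro ⟨b, hb, rfl⟩
        exact (hroot b).2 hb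
    rw [hset, finsum_mem_coe_finset, Finset.sum_map]
    have h2 : ∀ b ∈ f.roots.toFinset,
        1 - ordP ((⟨fun b : k => (b : OnePoint k), OnePoint.coe_injective⟩ : k ↪ OnePoint k) b)
          (algebraMap k[X] (RatFunc k) f)⁻¹ = 2 := by
      intro b hb
      have h3 : ordP (b : OnePoint k) (algebraMap k[X] (RatFunc k) f)⁻¹ = -1 :=
        hval b ((hroot b).2 hb)
      show 1 - ordP (b : OnePoint k) (algebraMap k[X] (RatFunc k) f)⁻¹ = 2
      rw [h3]
      norm_num
    rw [Finset.sum_congr rfl h2, Finset.sum_const, hcard, nsmul_eq_mul, Nat.cast_sub ha0]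
    push_cast
    ring

end Pool.Agent.Helper22.HL
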