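import Pool.Agent.Helper22.HL.Tr

/-!
MP_143e28_ag, project HL (helper22): the curve `y ^ n = x ^ j (x ^ a + 1)` has genus `g` with `2 g = (n - 1) a` (`PresC`; `n`, `a` odd, `2 j + a = n t`, characteristic 2).

Roots of `f = X ^ j (X ^ a + 1)`: `0` with multiplicity `j` (`0 < j < n`, prime to `n`) and the `a` roots of `X ^ a + 1 = X ^ a - 1`, simple (`a ≠ 0` in `k`; `a` of them,
`card_roots`); degree `j + a`, prime to `n`: a common divisor of `n` and `j + a` divides `2 j + a`, so `j`, so it is 1; `∞` is a branch point (`n ≥ 3`).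
`BrN n f`: `a + 2` points (`Nat.card` of a set `{0} ∪ {∞} ∪ roots`: a bijection with `Option (Option (rootsOfUnity a k))`, or `Set.ncard`).
-/

set_option autoImplicit false

namespace Pool.Agent.Helper22.HL

open Polynomial Pool.Agent.Helper54.HY Pool.Agent.Helper54.HZ

private theorem GenC_odd {k : Type*} [Field k] [CharP k 2] {n : ℕ} (hn : Odd n) : (n : k) = 1 := by
  obtain ⟨m, rfl⟩ := hn
  have h2 : (2 : k) = 0 := by exact_mod_cast CharP.cast_eq_zero k 2
  push_cast
  rw [h2, zero_mul, zero_add]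

private theorem GenC_neg {k : Type*} [Field k] [CharP k 2] (c : k) : c + 1 = 0 ↔ c = 1 := by
  have h2 : (2 : k) = 0 := by exact_mod_cast CharP.cast_eq_zero k 2
  constructor
  · intro h
    linear_combination h - h2
  · rintro rfl
    linear_combination h2

private theorem GenC_monic {k : Type*} [Field k] {a j : ℕ} (ha : 0 < a) :
    (X ^ j * (X ^ a + 1) : k[X]).Monic := by
  have h1 : (X ^ a + 1 : k[X]).Monic := by
    have := monic_X_pow_add_C (R := k) 1 ha.ne'
    rwa [C_1] at this
  exact (monic_X_pow j).mul h1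

private theorem GenC_deg {k : Type*} [Field k] {a j : ℕ} (ha : 0 < a) :
    (X ^ j * (X ^ a + 1) : k[X]).natDegree = j + a := by
  have h1 : (X ^ a + 1 : k[X]).Monic := by
    have := monic_X_pow_add_C (R := k) 1 ha.ne'
    rwa [C_1] at this
  rw [(monic_X_pow j).natDegree_mul h1, natDegree_X_pow]
  congr 1
  have := natDegree_X_pow_add_C (R := k) (n := a) (r := 1)
  rwa [C_1] at this

private theorem GenC_eval {k : Type*} [Field k] [CharP k 2] {a j : ℕ} (hj0 : 0 < j) (c : k) :
    (X ^ j * (X ^ a + 1) : k[X]).eval c = 0 ↔ c = 0 ∨ c ^ a = 1 := by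
  rw [eval_mul, eval_pow, eval_X, eval_add, eval_pow, eval_X, eval_one, mul_eq_zero,
    pow_eq_zero_iff hj0.ne', GenC_neg]

private theorem GenC_cop {n a j t : ℕ} (hj : Nat.Coprime n j) (ht : 2 * j + a = n * t) :
    Nat.Coprime n (j + a) := by
  have h1 : n.gcd (j + a) ∣ j := by
    have h2 : n.gcd (j + a) ∣ 2 * j + a := by
      rw [ht]
      exact (Nat.gcd_dvd_left _ _).trans (dvd_mul_right _ _)
    have h3 : n.gcd (j + a) ∣ j + a := Nat.gcd_dvd_right _ _
    have h4 : 2 * j + a = j + (j + a) := by ring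
    rw [h4] at h2
    exact (Nat.dvd_add_left h3).1 h2
  have h2 : n.gcd (j + a) ∣ n.gcd j := Nat.dvd_gcd (Nat.gcd_dvd_left _ _) h1
  rw [Nat.Coprime] at hj
  rw [hj, Nat.dvd_one] at h2
  exact h2

theorem card_brC {k : Type*} [Field k] [IsAlgClosed k] [CharP k 2] {n a j t : ℕ} (hn : Odd n) (hn3 : 3 ≤ n)
    (ha : Odd a) (hj0 : 0 < j) (hjn : j < n) (hj : Nat.Coprime n j) (ht : 2 * j + a = n * t) :
    Nat.card (BrN n (X ^ j * (X ^ a + 1) : k[X])) = a + 2 := by
  classical
  have ha0 : 0 < a := ha.pos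
  have : NeZero (a : k) := ⟨by rw [GenC_odd ha]; exact one_ne_zero⟩
  obtain ⟨ζ, hζ⟩ : ∃ ζ : k, IsPrimitiveRoot ζ a := by
    obtain ⟨ζ, hζ⟩ := IsAlgClosed.exists_root (cyclotomic a k)
      (ne_of_gt (degree_cyclotomic_pos a k ha0))
    exact ⟨ζ, isRoot_cyclotomic_iff.1 hζ⟩
  have hcop := GenC_cop hj ht
  have hnd : ¬ n ∣ j + a := by
    intro h
    have h1 := Nat.eq_one_of_dvd_coprimes hcop (dvd_refl n) h
    omega
  have hset : BrN n (X ^ j * (X ^ a + 1) : k[X]) =
      insert OnePoint.infty ((fun c : k => (c : OnePoint k)) ''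
        ((insert 0 (nthRootsFinset a (1 : k)) : Finset k) : Set k)) := by
    ext P
    simp only [BrN, GenC_eval hj0, GenC_deg ha0]
    constructor
    · rintro (⟨c, hc, rfl⟩ | ⟨_, rfl⟩)
      · right
        refine ⟨c, ?_, rfl⟩
        rw [Finset.mem_coe, Finset.mem_insert, mem_nthRootsFinset ha0]
        exact hc
      · exact Or.inl rfl
    · rintro (rfl | ⟨c, hc, rfl⟩)
      · exact Or.inr ⟨hnd, rfl⟩
      · left
        rw [Finset.mem_coe, Finset.mem_insert, mem_nthRootsFinset ha0] at hc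
        exact ⟨c, hc, rfl⟩
  have h0 : (0 : k) ∉ nthRootsFinset a (1 : k) := by
    rw [mem_nthRootsFinset ha0, zero_pow ha0.ne']
    exact zero_ne_one
  rw [hset, Nat.card_coe_set_eq, Set.ncard_insert_of_notMem, Set.ncard_image_of_injective _
    OnePoint.coe_injective, Set.ncard_coe_finset, Finset.card_insert_of_notMem h0,
    hζ.card_nthRootsFinset]
  · rintro ⟨c, _, hc⟩
    exact OnePoint.coe_ne_infty c hc

private theorem GenC_mult {k : Type*} [Field k] [CharP k 2] {a j : ℕ} (ha : Odd a) (hj0 : 0 < j)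
    (c : k) : (c = 0 → (X ^ j * (X ^ a + 1) : k[X]).rootMultiplicity c = j) ∧
      (c ≠ 0 → (X ^ j * (X ^ a + 1) : k[X]).rootMultiplicity c ≤ 1) := by
  have ha0 : 0 < a := ha.pos
  have hne : (X ^ j * (X ^ a + 1) : k[X]) ≠ 0 := (GenC_monic ha0).ne_zero
  have hne2 : (X ^ a + 1 : k[X]) ≠ 0 := right_ne_zero_of_mul hne
  constructor
  · rintro rfl
    rw [rootMultiplicity_mul hne]
    have h1 : (X ^ j : k[X]).rootMultiplicity 0 = j := by
      have h2 := rootMultiplicity_X_sub_C_pow (0 : k) j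
      rwa [C_0, sub_zero] at h2
    have h2 : (X ^ a + 1 : k[X]).rootMultiplicity 0 = 0 := by
      apply rootMultiplicity_eq_zero
      rw [IsRoot.def, eval_add, eval_pow, eval_X, eval_one, zero_pow ha0.ne', zero_add]
      exact one_ne_zero
    rw [h1, h2, add_zero]
  · intro hc
    rw [rootMultiplicity_mul hne]
    have h1 : (X ^ j : k[X]).rootMultiplicity c = 0 := by
      apply rootMultiplicity_eq_zero
      rw [IsRoot.def, eval_pow, eval_X]
      exact pow_ne_zero _ hc
    rw [h1, zero_add]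
    by_contra hlt
    rw [not_le, one_lt_rootMultiplicity_iff_isRoot hne2] at hlt
    have h2 := hlt.2
    rw [derivative_add, derivative_one, add_zero, derivative_X_pow, IsRoot.def, eval_mul,
      eval_pow, eval_X, eval_C, GenC_odd ha, one_mul] at h2
    exact pow_ne_zero _ hc h2

theorem presC {k F : Type*} [Field k] [IsAlgClosed k] [CharP k 2] [Field F] [Algebra k F] {n a j t g : ℕ}
    (hn : Odd n) (hn3 : 3 ≤ n) (ha : Odd a) (hj0 : 0 < j) (hjn : j < n) (hj : Nat.Coprime n j)
    (ht : 2 * j + a = n * t) (hg : (n - 1) * a = 2 * g) {x y : F} (hx : Transcendental k x)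
    (hgen : IntermediateField.adjoin k {x, y} = ⊤)
    (he : aeval y (X ^ n : k[X]) = rat hx (algebraMap k[X] (RatFunc k) (X ^ j * (X ^ a + 1)))) :
    PresC k F n g x y (X ^ j * (X ^ a + 1)) where
  two := by omega
  char := by
    rw [GenC_odd hn]
    exact one_ne_zero
  trans := hx
  gen := hgen
  ne0 := (GenC_monic ha.pos).ne_zero
  mult := fun c => by
    have h := GenC_mult ha hj0 c
    by_cases hc : c = 0
    · rw [h.1 hc]
      exact hjn
    · have := h.2 hc
      omega
  tot := fun c h0 => by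
    have h := GenC_mult ha hj0 c
    by_cases hc : c = 0
    · rw [h.1 hc]
      exact hj
    · have h1 := h.2 hc
      have h2 : 0 < (X ^ j * (X ^ a + 1) : k[X]).rootMultiplicity c :=
        (rootMultiplicity_pos (GenC_monic ha.pos).ne_zero).2 h0
      have h3 : (X ^ j * (X ^ a + 1) : k[X]).rootMultiplicity c = 1 := by omega
      rw [h3]
      exact Nat.coprime_one_right n
  inf := Or.inr (by
    rw [GenC_deg ha.pos]
    exact GenC_cop hj ht)
  eqn := by
    rw [rat_poly] at he
    rw [← he, map_pow, aeval_X]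
  genus := by
    rw [card_brC hn hn3 ha hj0 hjn hj ht, Nat.add_sub_cancel]
    exact hg

end Pool.Agent.Helper22.HL
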