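import Pool.Agent.Helper22.HL.Defs

/-!
MP_143e28_ag, project HL (helper22): `Y ^ n = X ^ j (X ^ a + 1)` is irreducible over `k(X)` (`a` odd, characteristic 2).

Eisenstein: `Y ^ n - C (X ^ j (X ^ a + 1))` over `k[X]`, at the prime `X - 1 = X + 1`: `1` is a root of `X ^ a + 1`, a simple one (`X ^ a - 1` is separable, the
derivative at 1 is `a ≠ 0` in `k`), and not a root of `X ^ j`; monic, so irreducible over `k(X)`
(`Polynomial.Monic.irreducible_iff_irreducible_map_fraction_map`, `Polynomial.irreducible_of_eisenstein_criterion`).  (Or: `X_pow_sub_C_irreducible_iff_of_odd`.)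
-/

set_option autoImplicit false

namespace Pool.Agent.Helper22.HL

open Polynomial Pool.Agent.Helper54.HY Pool.Agent.Helper54.HZ

theorem IrrC_two {k : Type*} [Field k] [CharP k 2] : (1 : k) + 1 = 0 := by
  have h := CharP.cast_eq_zero k 2
  rw [Nat.cast_ofNat] at h
  rw [one_add_one_eq_two, h]

theorem IrrC_mem {k : Type*} [Field k] [CharP k 2] (a j : ℕ) :
    (X ^ j * (X ^ a + 1) : k[X]) ∈ Ideal.span {(X - C 1 : k[X])} := by
  rw [Ideal.mem_span_singleton, dvd_iff_isRoot, IsRoot.def]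
  rw [eval_mul, eval_add, eval_pow, eval_pow, eval_X, eval_one, one_pow, one_pow, IrrC_two, mul_zero]

theorem IrrC_not_mem {k : Type*} [Field k] [CharP k 2] {a : ℕ} (j : ℕ) (ha : Odd a) :
    (X ^ j * (X ^ a + 1) : k[X]) ∉ Ideal.span {(X - C 1 : k[X])} ^ 2 := by
  rw [Ideal.span_singleton_pow, Ideal.mem_span_singleton]
  rintro ⟨q, hq⟩
  have h1 : eval 1 (derivative (X ^ j * (X ^ a + 1) : k[X])) = (a : k) := by
    simp only [derivative_mul, derivative_add, derivative_X_pow, derivative_one, eval_add, eval_mul,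
      eval_pow, eval_X, eval_one, one_pow, eval_C, map_natCast, eval_natCast, IrrC_two, mul_zero,
      mul_one, one_mul, add_zero, zero_add]
  have h2 : eval 1 (derivative ((X - C 1) ^ 2 * q : k[X])) = 0 := by
    simp only [derivative_mul, derivative_pow, derivative_sub, derivative_X, derivative_C, eval_add,
      eval_mul, eval_pow, eval_sub, eval_X, eval_C, sub_self, sub_zero]
    simp
  rw [hq, h2] at h1
  have h3 : (2 : ℕ) ∣ a := (CharP.cast_eq_zero_iff k 2 a).1 h1.symm
  have h4 := ha.not_two_dvd_nat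
  exact h4 h3

theorem IrrC_poly {k : Type*} [Field k] [CharP k 2] {n a : ℕ} (j : ℕ) (hn : 0 < n) (ha : Odd a) :
    Irreducible (X ^ n - C (X ^ j * (X ^ a + 1) : k[X]) : (k[X])[X]) := by
  have hm : (X ^ n - C (X ^ j * (X ^ a + 1) : k[X]) : (k[X])[X]).Monic :=
    monic_X_pow_sub_C _ hn.ne'
  have hp : (Ideal.span {(X - C 1 : k[X])}).IsPrime :=
    (Ideal.span_singleton_prime (X_sub_C_ne_zero 1)).2 (prime_X_sub_C 1)
  refine irreducible_of_eisenstein_criterion hp ?_ ?_ ?_ ?_ hm.isPrimitive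
  · rw [hm.leadingCoeff]
    exact (Ideal.ne_top_iff_one _).1 hp.ne_top
  · intro i hi
    rw [degree_X_pow_sub_C hn, Nat.cast_lt] at hi
    rw [coeff_sub, coeff_X_pow, if_neg hi.ne, zero_sub, coeff_C]
    apply (Ideal.span {(X - C 1 : k[X])}).neg_mem
    split_ifs
    · exact IrrC_mem a j
    · exact (Ideal.span {(X - C 1 : k[X])}).zero_mem
  · rw [degree_X_pow_sub_C hn]
    exact_mod_cast hn
  · rw [coeff_sub, coeff_X_pow, if_neg hn.ne, zero_sub, coeff_C_zero]
    intro h
    exact IrrC_not_mem j ha ((Ideal.neg_mem_iff _).1 h)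

theorem irrC {k : Type*} [Field k] [CharP k 2] {n a j : ℕ} (hn : 0 < n) (ha : Odd a) :
    Irreducible (eqn (X ^ n) (algebraMap k[X] (RatFunc k) (X ^ j * (X ^ a + 1)))) := by
  have h1 := IrrC_poly (k := k) j hn ha
  have hm : (X ^ n - C (X ^ j * (X ^ a + 1) : k[X]) : (k[X])[X]).Monic :=
    monic_X_pow_sub_C _ hn.ne'
  have h2 := (hm.irreducible_iff_irreducible_map_fraction_map (K := RatFunc k)).1 h1
  rw [Polynomial.map_sub, Polynomial.map_pow, map_X, map_C] at h2
  unfold eqn
  rw [Polynomial.map_pow, map_X]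
  exact h2

end Pool.Agent.Helper22.HL
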