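import Pool.Agent.Helper22.HL.Defs

/-!
MP_143e28_ag, project HL (helper22): small facts.  `c x` and `c / x` are transcendental (if `c x = z` is algebraic, so is `x = c⁻¹ z`;
`IsAlgebraic.mul`, `IsAlgebraic.inv`).  `rat_inv`: the value of `1 / (X ^ a + 1)`.  `exists_tr`: if `IntermediateField.adjoin` of `c x` (or `c / x`) and
`d y + e` (or `d y / x ^ s`) is everything (`adjoin_mul`, `adjoin_inv`): `x`, `y` are in it.  `card_roots`: there are `n` elements of
`rootsOfUnity n k` (`HasEnoughRootsOfUnity.natCard_rootsOfUnity`), `n` odd, characteristic 2.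
-/

set_option autoImplicit false

namespace Pool.Agent.Helper22.HL

open Polynomial Pool.Agent.Helper54.HY Pool.Agent.Helper54.HZ

variable {k F : Type*} [Field k] [Field F] [Algebra k F]

private theorem Tr_alg_ne {c : k} (hc : c ≠ 0) : algebraMap k F c ≠ 0 := by
  intro h
  exact hc ((map_eq_zero (algebraMap k F)).1 h)

theorem trans_mul {x : F} (hx : Transcendental k x) {c : k} (hc : c ≠ 0) :
    Transcendental k (algebraMap k F c * x) := by
  intro h
  apply hx
  have h1 : x = algebraMap k F c⁻¹ * (algebraMap k F c * x) := by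
    rw [map_inv₀, inv_mul_cancel_left₀ (Tr_alg_ne hc)]
  rw [h1]
  exact (isAlgebraic_algebraMap c⁻¹).mul h

theorem trans_div {x : F} (hx : Transcendental k x) {c : k} (hc : c ≠ 0) :
    Transcendental k (algebraMap k F c / x) := by
  intro h
  apply hx
  have hx0 : x ≠ 0 := by
    rintro rfl
    exact hx isAlgebraic_zero
  have hc0 := Tr_alg_ne (F := F) hc
  have h1 : x = algebraMap k F c * (algebraMap k F c / x)⁻¹ := by
    field_simp
  rw [h1]
  exact (isAlgebraic_algebraMap c).mul h.inv

theorem rat_inv {x : F} (hx : Transcendental k x) (a : ℕ) :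
    rat hx (algebraMap k[X] (RatFunc k) (X ^ a + 1))⁻¹ = 1 / (x ^ a + 1) := by
  rw [map_inv₀, rat_poly, map_add, map_pow, aeval_X, map_one, one_div]

theorem adjoin_mul {x y : F} (hgen : IntermediateField.adjoin k {x, y} = ⊤) {c d e : k} (hc : c ≠ 0)
    (hd : d ≠ 0) : IntermediateField.adjoin k
      {algebraMap k F c * x, algebraMap k F d * y + algebraMap k F e} = ⊤ := by
  rw [eq_top_iff, ← hgen, IntermediateField.adjoin_le_iff]
  set L := IntermediateField.adjoin k
      {algebraMap k F c * x, algebraMap k F d * y + algebraMap k F e} with hL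
  have h1 : algebraMap k F c * x ∈ L := IntermediateField.subset_adjoin _ _ (Set.mem_insert _ _)
  have h2 : algebraMap k F d * y + algebraMap k F e ∈ L :=
    IntermediateField.subset_adjoin _ _ (Set.mem_insert_of_mem _ rfl)
  have hx : x ∈ L := by
    have h3 : x = (algebraMap k F c)⁻¹ * (algebraMap k F c * x) := by
      rw [inv_mul_cancel_left₀ (Tr_alg_ne hc)]
    rw [h3]
    exact L.mul_mem (L.inv_mem (L.algebraMap_mem c)) h1
  have hy : y ∈ L := by
    have h3 : y = (algebraMap k F d)⁻¹ * ((algebraMap k F d * y + algebraMap k F e) -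
        algebraMap k F e) := by
      rw [add_sub_cancel_right, inv_mul_cancel_left₀ (Tr_alg_ne hd)]
    rw [h3]
    exact L.mul_mem (L.inv_mem (L.algebraMap_mem d)) (L.sub_mem h2 (L.algebraMap_mem e))
  intro z hz
  rcases hz with rfl | hz
  · exact hx
  · rw [Set.mem_singleton_iff.1 hz]
    exact hy

theorem adjoin_div {x y : F} (hgen : IntermediateField.adjoin k {x, y} = ⊤) (hx0 : x ≠ 0) {c d e : k} (hc : c ≠ 0)
    (hd : d ≠ 0) (s : ℕ) : IntermediateField.adjoin k
      {algebraMap k F c / x, algebraMap k F d * y / x ^ s + algebraMap k F e} = ⊤ := by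
  rw [eq_top_iff, ← hgen, IntermediateField.adjoin_le_iff]
  set L := IntermediateField.adjoin k
      {algebraMap k F c / x, algebraMap k F d * y / x ^ s + algebraMap k F e} with hL
  have h1 : algebraMap k F c / x ∈ L := IntermediateField.subset_adjoin _ _ (Set.mem_insert _ _)
  have h2 : algebraMap k F d * y / x ^ s + algebraMap k F e ∈ L :=
    IntermediateField.subset_adjoin _ _ (Set.mem_insert_of_mem _ rfl)
  have hc0 := Tr_alg_ne (F := F) hc
  have hd0 := Tr_alg_ne (F := F) hd
  have hx : x ∈ L := by
    have h3 : x = algebraMap k F c * (algebraMap k F c / x)⁻¹ := by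
      field_simp
    rw [h3]
    exact L.mul_mem (L.algebraMap_mem c) (L.inv_mem h1)
  have hy : y ∈ L := by
    have h3 : y = (algebraMap k F d)⁻¹ * ((algebraMap k F d * y / x ^ s + algebraMap k F e) -
        algebraMap k F e) * x ^ s := by
      rw [add_sub_cancel_right]
      field_simp
    rw [h3]
    exact L.mul_mem (L.mul_mem (L.inv_mem (L.algebraMap_mem d))
      (L.sub_mem h2 (L.algebraMap_mem e))) (pow_mem hx s)
  intro z hz
  rcases hz with rfl | hz
  · exact hx
  · rw [Set.mem_singleton_iff.1 hz]
    exact hy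

theorem card_roots [IsAlgClosed k] [CharP k 2] {n : ℕ} (hn : Odd n) : Nat.card (rootsOfUnity n k) = n := by
  have h1 : (n : k) ≠ 0 := by
    intro h
    rw [CharP.cast_eq_zero_iff k 2] at h
    obtain ⟨m, hm⟩ := hn
    omega
  have : NeZero (n : k) := ⟨h1⟩
  have : NeZero n := NeZero.of_neZero_natCast k
  exact HasEnoughRootsOfUnity.natCard_rootsOfUnity k n

/-- `x ^ 2` is not a constant -/
theorem sq_ne {x : F} (hx : Transcendental k x) (c : k) : x * x ≠ algebraMap k F c := by
  intro h
  apply hx
  refine ⟨X ^ 2 - C c, X_pow_sub_C_ne_zero (by norm_num) c, ?_⟩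
  rw [map_sub, map_pow, aeval_X, aeval_C, sq, h, sub_self]

end Pool.Agent.Helper22.HL
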