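import Pool.Agent.Helper22.HL.Lift
import Pool.Agent.Helper22.HL.Tr
import Pool.Agent.Helper22.HL.IrrC

/-!
MP_143e28_ag, project HL (helper22): the curve `y ^ n = x ^ j (x ^ a + 1)`, `2 j + a = n t`, has at least `2 n a` automorphisms (`n`, `a` odd, characteristic 2).

For `z ^ (n a) = 1` (`n a` of them, `card_roots`): `(x, y) ↦ (z ^ n x, z ^ j y)` and `(x, y) ↦ (z ^ n / x, z ^ j y / x ^ t)`:
`(z ^ n / x) ^ j ((z ^ n / x) ^ a + 1) = z ^ (n j) x ^ (- j - a) (1 + x ^ a) = z ^ (n j) x ^ (- n t) · x ^ j (x ^ a + 1)`.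
`auto_gen` with `trans_mul`, `trans_div`, `adjoin_mul`, `adjoin_div` (`e = 0`), `rat_poly`.  Distinct: `z ^ n = z' ^ n` and `z ^ j = z' ^ j` give `z = z'`, as `n`, `j` are coprime;
`z x = z' / x` is impossible (`sq_ne`).  Compare `Helper28/HA/C2.lean` (`many_one`) and `Helper22/HB/Many.lean`.
Injective map from `rootsOfUnity (n * a) k × Bool`: `ENat.card` (`ENat.card_le_card_of_injective`).
-/

set_option autoImplicit false

namespace Pool.Agent.Helper22.HL

open Polynomial Pool.Agent.Helper54.HY Pool.Agent.Helper54.HZ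

theorem manyC {k F : Type*} [Field k] [IsAlgClosed k] [CharP k 2] [Field F] [Algebra k F] {n a j t : ℕ}
    (hn : Odd n) (ha : Odd a) (hj : Nat.Coprime n j) (ht : 2 * j + a = n * t) {x y : F}
    (hx : Transcendental k x) (hgen : IntermediateField.adjoin k {x, y} = ⊤)
    (he : aeval y (X ^ n : k[X]) = rat hx (algebraMap k[X] (RatFunc k) (X ^ j * (X ^ a + 1)))) :
    ((2 * (n * a) : ℕ) : ℕ∞) ≤ ENat.card (F ≃ₐ[k] F) := by
  classical
  have hn0 : 0 < n := hn.pos
  have ha0 : 0 < a := ha.pos
  have hx0 : x ≠ 0 := by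
    rintro rfl
    exact hx isAlgebraic_zero
  have hI := irrC (k := k) (j := j) hn0 ha
  have hev : y ^ n = x ^ j * (x ^ a + 1) := by
    have h1 := he
    rw [rat_poly] at h1
    simpa using h1
  have hy0 : y ≠ 0 := by
    intro e
    rw [e, map_pow, aeval_X, zero_pow hn0.ne', ← map_zero (rat hx)] at he
    have h1 := rat_injective hx he
    rw [eq_comm, map_eq_zero_iff _ (IsFractionRing.injective k[X] (RatFunc k))] at h1
    have h2 : (X ^ a + 1 : k[X]) ≠ 0 := by
      rw [← C_1]
      exact (monic_X_pow_add_C (1 : k) ha0.ne').ne_zero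
    exact mul_ne_zero (pow_ne_zero _ X_ne_zero) h2 h1
  let zz : rootsOfUnity (n * a) k → k := fun z => (z.1 : k)
  have hz : ∀ z, zz z ^ (n * a) = 1 := fun z => (mem_rootsOfUnity' (n * a) z.1).1 z.2
  have hz0 : ∀ z, zz z ≠ 0 := fun z => z.1.ne_zero
  have hzinj : ∀ z z', zz z ^ n = zz z' ^ n → zz z ^ j = zz z' ^ j → z = z' := by
    intro z z' h1 h2
    have h3 : (z.1 / z'.1) ^ n = 1 := by
      rw [div_pow, div_eq_one]
      apply Units.ext
      rw [Units.val_pow_eq_pow_val, Units.val_pow_eq_pow_val]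
      exact h1
    have h4 : (z.1 / z'.1) ^ j = 1 := by
      rw [div_pow, div_eq_one]
      apply Units.ext
      rw [Units.val_pow_eq_pow_val, Units.val_pow_eq_pow_val]
      exact h2
    have h5 : (z.1 / z'.1) ^ n.gcd j = 1 := pow_gcd_eq_one.2 ⟨h3, h4⟩
    rw [hj, pow_one, div_eq_one] at h5
    exact Subtype.ext h5
  let X' : rootsOfUnity (n * a) k × Bool → F := fun u =>
    if u.2 then algebraMap k F (zz u.1 ^ n) * x else algebraMap k F (zz u.1 ^ n) / x
  let Y' : rootsOfUnity (n * a) k × Bool → F := fun u =>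
    if u.2 then algebraMap k F (zz u.1 ^ j) * y + algebraMap k F 0
    else algebraMap k F (zz u.1 ^ j) * y / x ^ t + algebraMap k F 0
  have hauto : ∀ u, ∃ s : F ≃ₐ[k] F, s x = X' u ∧ s y = Y' u := by
    rintro ⟨z, b⟩
    have hw : (algebraMap k F (zz z)) ^ (n * a) = 1 := by rw [← map_pow, hz, map_one]
    have hw0 : algebraMap k F (zz z) ≠ 0 := by
      rw [Ne, map_eq_zero]
      exact hz0 z
    cases b
    · refine auto_gen hI hx hgen he (trans_div hx (pow_ne_zero _ (hz0 z)))
        (adjoin_div hgen hx0 (e := 0) (pow_ne_zero _ (hz0 z)) (pow_ne_zero _ (hz0 z)) t) ?_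
      rw [rat_poly]
      simp only [X', Y', Bool.false_eq_true, if_false, map_pow, map_mul, map_add, aeval_X, map_one,
        map_zero, add_zero]
      have h1 : (x ^ t) ^ n = x ^ j * x ^ j * x ^ a := by
        rw [← pow_mul, mul_comm t n, ← ht, two_mul, pow_add, pow_add]
      have h2 : ((algebraMap k F (zz z)) ^ n) ^ a = 1 := by rw [← pow_mul, hw]
      have h3 : ((algebraMap k F (zz z)) ^ j) ^ n = ((algebraMap k F (zz z)) ^ n) ^ j := by
        rw [← pow_mul, ← pow_mul, mul_comm]
      rw [div_pow, mul_pow, hev, h1, h3, div_pow, div_pow, h2]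
      have hxj : x ^ j ≠ 0 := pow_ne_zero _ hx0
      have hxa : x ^ a ≠ 0 := pow_ne_zero _ hx0
      field_simp
      ring
    · refine auto_gen hI hx hgen he (trans_mul hx (pow_ne_zero _ (hz0 z)))
        (adjoin_mul hgen (e := 0) (pow_ne_zero _ (hz0 z)) (pow_ne_zero _ (hz0 z))) ?_
      rw [rat_poly]
      simp only [X', Y', if_true, map_pow, map_mul, map_add, aeval_X, map_one, map_zero, add_zero]
      have h2 : ((algebraMap k F (zz z)) ^ n) ^ a = 1 := by rw [← pow_mul, hw]
      have h3 : ((algebraMap k F (zz z)) ^ j) ^ n = ((algebraMap k F (zz z)) ^ n) ^ j := by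
        rw [← pow_mul, ← pow_mul, mul_comm]
      rw [mul_pow, hev, h3, mul_pow, mul_pow, h2]
      ring
  choose s hs using hauto
  have hinj : Function.Injective s := by
    rintro ⟨z, b⟩ ⟨z', b'⟩ hss
    have h1 : X' (z, b) = X' (z', b') := by rw [← (hs _).1, ← (hs _).1, hss]
    have h3 : Y' (z, b) = Y' (z', b') := by rw [← (hs _).2, ← (hs _).2, hss]
    cases b <;> cases b'
    · simp only [X', Bool.false_eq_true, if_false] at h1
      simp only [Y', Bool.false_eq_true, if_false] at h3
      have h5 : z = z' := by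
        refine hzinj z z' ?_ ?_
        · exact (algebraMap k F).injective ((div_left_inj' hx0).1 h1)
        · have h6 := add_right_cancel h3
          exact (algebraMap k F).injective (mul_right_cancel₀ hy0
            ((div_left_inj' (pow_ne_zero _ hx0)).1 h6))
      rw [h5]
    · exfalso
      simp only [X', Bool.false_eq_true, if_false, if_true] at h1
      apply sq_ne hx (zz z ^ n / zz z' ^ n)
      have h6 : algebraMap k F (zz z' ^ n) ≠ 0 := by
        rw [Ne, map_eq_zero]
        exact pow_ne_zero _ (hz0 z')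
      rw [map_div₀, eq_div_iff h6]
      rw [div_eq_iff hx0] at h1
      linear_combination -h1
    · exfalso
      simp only [X', Bool.false_eq_true, if_false, if_true] at h1
      apply sq_ne hx (zz z' ^ n / zz z ^ n)
      have h6 : algebraMap k F (zz z ^ n) ≠ 0 := by
        rw [Ne, map_eq_zero]
        exact pow_ne_zero _ (hz0 z)
      rw [map_div₀, eq_div_iff h6]
      rw [eq_div_iff hx0] at h1
      linear_combination h1
    · simp only [X', if_true] at h1
      simp only [Y', if_true] at h3
      have h5 : z = z' := by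
        refine hzinj z z' ?_ ?_
        · exact (algebraMap k F).injective (mul_right_cancel₀ hx0 h1)
        · exact (algebraMap k F).injective (mul_right_cancel₀ hy0 (add_right_cancel h3))
      rw [h5]
  have hcard := ENat.card_le_card_of_injective hinj
  have hna : 0 < n * a := Nat.mul_pos hn0 ha0
  have : NeZero (n * a) := ⟨hna.ne'⟩
  have h9 : ENat.card (rootsOfUnity (n * a) k × Bool) = ((2 * (n * a) : ℕ) : ℕ∞) := by
    have : Finite (rootsOfUnity (n * a) k) := inferInstance
    rw [ENat.card_eq_coe_natCard, Nat.card_prod, card_roots (hn.mul ha),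
      Nat.card_eq_fintype_card (α := Bool), Fintype.card_bool, mul_comm]
  rw [← h9]
  exact hcard

end Pool.Agent.Helper22.HL
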