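import Pool.Agent.Helper22.HL.Defs
import Mathlib.Algebra.Polynomial.Bivariate
import Mathlib.RingTheory.Polynomial.Eisenstein.Criterion
import Mathlib.RingTheory.Polynomial.GaussLemma

/-!
MP_143e28_ag, project HL (helper22): `Y ^ q - Y = X ^ m` is irreducible over `k(X)` (`q = 2 ^ s ≥ 2`, characteristic 2, `m ≥ 1`).

Over `k[X]` the polynomial `Y ^ q - Y - X ^ m` is monic in `Y`, so it is enough that it is irreducible in `k[X][Y]`
(`Polynomial.Monic.irreducible_iff_irreducible_map_fraction_map`).  Exchange the variables (`Polynomial.Bivariate.swap`, a ring isomorphism: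
`MulEquiv.irreducible_iff`): up to the sign it becomes `X ^ m - (Y ^ q - Y)`, a polynomial in `X` over `k[Y]`: Eisenstein at the prime `Y`
(`Polynomial.irreducible_of_eisenstein_criterion`): `Y ∣ Y ^ q - Y`, `Y ^ 2 ∤ Y ^ q - Y` (the coefficient of `Y` is `- 1 ≠ 0`).
-/

set_option autoImplicit false

namespace Pool.Agent.Helper22.HL

open Polynomial Pool.Agent.Helper54.HY Pool.Agent.Helper54.HZ

private theorem IrrE_eis {k : Type*} [Field k] {q m : ℕ} (hq : 2 ≤ q) (hm : 1 ≤ m) :
    Irreducible (X ^ m - C (X ^ q - X) : k[X][X]) := by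
  have hm0 : m ≠ 0 := by omega
  have hprime : (Ideal.span {(X : k[X])}).IsPrime :=
    (Ideal.span_singleton_prime X_ne_zero).2 prime_X
  have hmon : (X ^ m - C (X ^ q - X) : k[X][X]).Monic := monic_X_pow_sub_C _ hm0
  have hdeg : (X ^ m - C (X ^ q - X) : k[X][X]).degree = m := degree_X_pow_sub_C (by omega) _
  have hc : (X ^ q - X : k[X]) ∈ Ideal.span {(X : k[X])} := by
    rw [Ideal.mem_span_singleton]
    exact dvd_sub (dvd_pow_self X (by omega)) dvd_rfl
  refine irreducible_of_eisenstein_criterion hprime ?_ ?_ ?_ ?_ hmon.isPrimitive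
  · rw [hmon.leadingCoeff]
    exact (Ideal.ne_top_iff_one _).1 hprime.ne_top
  · intro n hn
    rw [hdeg, Nat.cast_lt] at hn
    rw [coeff_sub, coeff_X_pow, if_neg hn.ne, coeff_C, zero_sub]
    by_cases h0 : n = 0
    · rw [if_pos h0]
      exact neg_mem hc
    · rw [if_neg h0, neg_zero]
      exact zero_mem _
  · rw [hdeg]
    exact_mod_cast hm
  · rw [coeff_sub, coeff_X_pow, if_neg (Ne.symm hm0), coeff_C_zero, zero_sub,
      Ideal.span_singleton_pow, Ideal.mem_span_singleton, dvd_neg, X_pow_dvd_iff]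
    intro h
    have h1 := h 1 (by norm_num)
    rw [coeff_sub, coeff_X_pow, coeff_X_one, if_neg (by omega), zero_sub] at h1
    exact one_ne_zero (neg_eq_zero.1 h1)

private theorem IrrE_biv {k : Type*} [Field k] {q m : ℕ} (hq : 2 ≤ q) (hm : 1 ≤ m) :
    Irreducible ((X ^ q - X : k[X]).map C - C (X ^ m) : k[X][X]) := by
  have h1 := IrrE_eis (k := k) hq hm
  have h2 : Bivariate.swap ((X ^ q - X : k[X]).map C - C (X ^ m) : k[X][X]) =
      -(X ^ m - C (X ^ q - X) : k[X][X]) := by
    rw [map_sub, Bivariate.swap_map_C, Bivariate.swap_C, Polynomial.map_pow, Polynomial.map_X]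
    ring
  have h3 : Irreducible (Bivariate.swap ((X ^ q - X : k[X]).map C - C (X ^ m) : k[X][X])) := by
    rw [h2]
    exact (Associated.refl _).neg_right.irreducible h1
  exact (MulEquiv.irreducible_iff (Bivariate.swap (R := k))).1 h3

theorem irrE {k : Type*} [Field k] [CharP k 2] {s m : ℕ} (hs : 1 ≤ s) (hm : 1 ≤ m) :
    Irreducible (eqn (X ^ (2 ^ s) - X) (algebraMap k[X] (RatFunc k) (X ^ m))) := by
  obtain ⟨q, hq⟩ : ∃ q, q = 2 ^ s := ⟨_, rfl⟩
  have hq2 : 2 ≤ q := by
    rw [hq]
    calc 2 = 2 ^ 1 := by norm_num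
      _ ≤ 2 ^ s := Nat.pow_le_pow_right (by norm_num) hs
  rw [← hq]
  have hmap : eqn (X ^ q - X) (algebraMap k[X] (RatFunc k) (X ^ m)) =
      ((X ^ q - X : k[X]).map C - C (X ^ m) : k[X][X]).map (algebraMap k[X] (RatFunc k)) := by
    have e : (algebraMap k[X] (RatFunc k)).comp C = algebraMap k (RatFunc k) :=
      (IsScalarTower.algebraMap_eq k k[X] (RatFunc k)).symm
    rw [Polynomial.map_sub, Polynomial.map_map, Polynomial.map_C, e]
  have hmon : ((X ^ q - X : k[X]).map C - C (X ^ m) : k[X][X]).Monic := by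
    have e : ((X ^ q - X : k[X]).map C - C (X ^ m) : k[X][X]) = X ^ q - (X + C (X ^ m)) := by
      rw [Polynomial.map_sub, Polynomial.map_pow, Polynomial.map_X]
      ring
    rw [e]
    refine monic_X_pow_sub ?_
    rw [degree_X_add_C]
    exact_mod_cast (show 1 < q by omega)
  rw [hmap]
  exact (hmon.irreducible_iff_irreducible_map_fraction_map (K := RatFunc k)).1 (IrrE_biv hq2 hm)

end Pool.Agent.Helper22.HL
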