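import Pool.Agent.Helper22.HL.Lift
import Pool.Agent.Helper22.HL.Tr
import Pool.Agent.Helper22.HL.IrrE

/-!
MP_143e28_ag, project HL (helper22): the curve `y ^ q - y = x ^ m` (`q = 2 ^ s`, `m` odd, characteristic 2) has at least `q (q - 1) m` automorphisms.

For `z ^ ((q - 1) m) = 1` (`(q - 1) m` of them, `card_roots`) and `c ^ q = c` (`q` of them: `0` and the `q - 1` roots of unity of order `q - 1`:
`Option (rootsOfUnity (q - 1) k)`): `(x, y) ↦ (z x, z ^ m y + c)`: `(z ^ m) ^ q = z ^ m`, `(z ^ m y + c) ^ q = z ^ m y ^ q + c` (`add_pow_char_pow`).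
`auto_gen` with `trans_mul`, `adjoin_mul`, `rat_poly`.  Distinct: `z x` determines `z`, then `z ^ m y + c` determines `c`.
Injective map into `F ≃ₐ[k] F`: `ENat.card` (`ENat.card_le_card_of_injective`).  Compare `Helper22/HB/Many.lean`.
-/

set_option autoImplicit false

namespace Pool.Agent.Helper22.HL

open Polynomial Pool.Agent.Helper54.HY Pool.Agent.Helper54.HZ

/-- the solutions of `c ^ q = c` -/
private def ManyE_c {k : Type*} [Field k] (n : ℕ) : Option (rootsOfUnity n k) → k
  | none => 0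
  | some z => (z.1 : k)

private theorem ManyE_inj {k : Type*} [Field k] (n : ℕ) : Function.Injective (ManyE_c (k := k) n) := by
  intro a b h
  cases a with
  | none =>
    cases b with
    | none => rfl
    | some z => exact absurd h.symm (Units.ne_zero z.1)
  | some w =>
    cases b with
    | none => exact absurd h (Units.ne_zero w.1)
    | some z => exact congrArg some (Subtype.ext (Units.ext h))

private theorem ManyE_pow {k : Type*} [Field k] {q : ℕ} (hq : 1 ≤ q) (o : Option (rootsOfUnity (q - 1) k)) :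
    ManyE_c (q - 1) o ^ q = ManyE_c (q - 1) o := by
  cases o with
  | none =>
    show (0 : k) ^ q = 0
    exact zero_pow (by omega)
  | some z =>
    show (z.1 : k) ^ q = (z.1 : k)
    have h1 := (mem_rootsOfUnity' (q - 1) z.1).1 z.2
    have h2 : q = (q - 1) + 1 := by omega
    calc (z.1 : k) ^ q = (z.1 : k) ^ ((q - 1) + 1) := by rw [← h2]
      _ = (z.1 : k) := by rw [pow_succ, h1, one_mul]

theorem manyE {k F : Type*} [Field k] [IsAlgClosed k] [CharP k 2] [Field F] [Algebra k F] {s m : ℕ}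
    (hs : 1 ≤ s) (hm : Odd m) {x y : F} (hx : Transcendental k x)
    (hgen : IntermediateField.adjoin k {x, y} = ⊤)
    (he : aeval y (X ^ (2 ^ s) - X : k[X]) = rat hx (algebraMap k[X] (RatFunc k) (X ^ m))) :
    ((2 ^ s * ((2 ^ s - 1) * m) : ℕ) : ℕ∞) ≤ ENat.card (F ≃ₐ[k] F) := by
  classical
  obtain ⟨q, hq⟩ : ∃ q, q = 2 ^ s := ⟨_, rfl⟩
  rw [← hq] at he ⊢
  have hq2 : 2 ≤ q := by
    rw [hq]
    calc 2 = 2 ^ 1 := (pow_one 2).symm
      _ ≤ 2 ^ s := Nat.pow_le_pow_right (by norm_num) hs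
  have hqe : Even q := by
    rw [hq]
    exact (Nat.even_pow.2 ⟨even_two, by omega⟩)
  have hq1 : Odd (q - 1) := by
    obtain ⟨r, hr⟩ := hqe
    exact ⟨r - 1, by omega⟩
  obtain ⟨n, hn⟩ : ∃ n, n = (q - 1) * m := ⟨_, rfl⟩
  have hno : Odd n := hn ▸ hq1.mul hm
  rw [← hn]
  have : NeZero n := ⟨by rcases hno with ⟨r, hr⟩; omega⟩
  have : NeZero (q - 1) := ⟨by omega⟩
  have hcF : CharP F 2 := charP_of_injective_algebraMap (algebraMap k F).injective 2
  have hx0 : x ≠ 0 := by
    rintro rfl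
    exact hx isAlgebraic_zero
  have heq : y ^ q - y = x ^ m := by
    rw [rat_poly] at he
    simpa using he
  have hFrob : ∀ a b : F, (a + b) ^ q = a ^ q + b ^ q := by
    intro a b
    rw [hq]
    exact add_pow_char_pow a b 2 s
  have hauto : ∀ t : rootsOfUnity n k × Option (rootsOfUnity (q - 1) k), ∃ σ : F ≃ₐ[k] F,
      σ x = algebraMap k F (t.1.1 : k) * x ∧
      σ y = algebraMap k F ((t.1.1 : k) ^ m) * y + algebraMap k F (ManyE_c (q - 1) t.2) := by
    rintro ⟨z, o⟩
    have hz0 : (z.1 : k) ≠ 0 := Units.ne_zero z.1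
    have hzn : (z.1 : k) ^ ((q - 1) * m) = 1 :=
      (congrArg (fun t => (z.1 : k) ^ t) hn).symm.trans ((mem_rootsOfUnity' n z.1).1 z.2)
    have hzq : ((z.1 : k) ^ m) ^ q = (z.1 : k) ^ m := by
      have h2 : m * q = (q - 1) * m + m := by
        obtain ⟨r, rfl⟩ : ∃ r, q = r + 1 := ⟨q - 1, by omega⟩
        rw [Nat.add_sub_cancel]
        ring
      rw [← pow_mul, h2, pow_add, hzn, one_mul]
    refine auto_gen (irrE hs (by rcases hm with ⟨r, hr⟩; omega)) hx hgen (hq ▸ he)
      (trans_mul hx hz0) (adjoin_mul hgen hz0 (pow_ne_zero m hz0)) ?_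
    rw [rat_poly]
    simp only [map_sub, map_pow, aeval_X]
    have e1 : (algebraMap k F (z.1 : k) ^ m) ^ q = algebraMap k F (z.1 : k) ^ m := by
      rw [← map_pow, ← map_pow, hzq]
    have e2 : algebraMap k F (ManyE_c (q - 1) o) ^ q = algebraMap k F (ManyE_c (q - 1) o) := by
      rw [← map_pow, ManyE_pow (by omega)]
    rw [← hq, hFrob, mul_pow, e1, e2, mul_pow, ← heq]
    ring
  choose σ hσ using hauto
  have hinj : Function.Injective σ := by
    rintro ⟨z, o⟩ ⟨z', o'⟩ hss
    have h1 : algebraMap k F (z.1 : k) * x = algebraMap k F (z'.1 : k) * x := by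
      rw [← (hσ (z, o)).1, ← (hσ (z', o')).1, hss]
    have h2 : z = z' :=
      Subtype.ext (Units.ext ((algebraMap k F).injective (mul_right_cancel₀ hx0 h1)))
    subst h2
    have h3 := (hσ (z, o)).2
    have h4 := (hσ (z, o')).2
    rw [hss, h4] at h3
    have h5 := (algebraMap k F).injective (add_left_cancel h3)
    exact congrArg (Prod.mk z) (ManyE_inj _ h5.symm)
  have hle := ENat.card_le_card_of_injective hinj
  have hc : ENat.card (rootsOfUnity n k × Option (rootsOfUnity (q - 1) k)) = ((q * n : ℕ) : ℕ∞) := by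
    rw [ENat.card_eq_coe_natCard, Nat.card_prod, Finite.card_option, card_roots hno, card_roots hq1]
    congr 1
    rw [Nat.sub_add_cancel (by omega), mul_comm]
  rw [hc] at hle
  exact hle

end Pool.Agent.Helper22.HL
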