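import Pool.Agent.Helper22.HL.Lift
import Pool.Agent.Helper22.HL.Tr
import Pool.Agent.Helper22.HL.IrrE

/-!
MP_143e28_ag, project HL (helper22): the curve `y ^ 2 - y = x ^ (Q + 1)` (`Q = 2 ^ e`, characteristic 2) has at least `2 Q ^ 2 (Q + 1)` automorphisms.

For `z ^ (Q + 1) = 1` (`Q + 1` of them, `card_roots`), `b` with `b ^ (Q ^ 2) = b` (`Q ^ 2` of them: `0` and the roots of unity of order `Q ^ 2 - 1`: `Option (rootsOfUnity (Q ^ 2 - 1) k)`) and
`c` with `c ^ 2 + c = b ^ (Q + 1)` (two of them: `c0 b`, from `IsAlgClosed`, and `c0 b + 1`): `x ↦ z x + b`, `y ↦ y + P + c`, `P = ∑ i < e, (b ^ Q z x) ^ (2 ^ i)`: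
`P ^ 2 + P = (b ^ Q z x) ^ Q + b ^ Q z x = b (z x) ^ Q + b ^ Q z x` (`sum_pow_char`, telescoping), `(z x + b) ^ (Q + 1) = (z x) ^ (Q + 1) + b (z x) ^ Q + b ^ Q (z x) + b ^ (Q + 1)`
(`add_pow_char_pow`).  `z x + b` is transcendental; `x`, `y` are in the field generated by `z x + b` and `y + P + c` (`P` is a polynomial in `x`).  `auto_gen`.
Distinct: `z x + b` determines `z` and `b` (`x` is transcendental), then `c`.  Compare `Helper22/HB/Many.lean`.
-/

set_option autoImplicit false

namespace Pool.Agent.Helper22.HL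

open Polynomial Pool.Agent.Helper54.HY Pool.Agent.Helper54.HZ

/-- the telescoping sum -/
private theorem MH_tel {F : Type*} [Field F] (h2 : (2 : F) = 0) (u : F) (e : ℕ) :
    (∑ i ∈ Finset.range e, u ^ (2 ^ i)) ^ 2 + ∑ i ∈ Finset.range e, u ^ (2 ^ i) =
      u ^ (2 ^ e) - u := by
  induction e with
  | zero => simp
  | succ e ih =>
    rw [Finset.sum_range_succ]
    have h1 : u ^ 2 ^ (e + 1) = (u ^ 2 ^ e) ^ 2 := by
      rw [← pow_mul, pow_succ]
    rw [h1]
    linear_combination ih + (u ^ 2 ^ e + (∑ i ∈ Finset.range e, u ^ (2 ^ i)) * u ^ 2 ^ e) * h2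

theorem manyH {k F : Type*} [Field k] [IsAlgClosed k] [CharP k 2] [Field F] [Algebra k F] {e : ℕ}
    (he1 : 1 ≤ e) {x y : F} (hx : Transcendental k x)
    (hgen : IntermediateField.adjoin k {x, y} = ⊤)
    (he : aeval y (X ^ (2 ^ 1) - X : k[X]) = rat hx (algebraMap k[X] (RatFunc k) (X ^ (2 ^ e + 1)))) :
    ((2 * (2 ^ e) ^ 2 * (2 ^ e + 1) : ℕ) : ℕ∞) ≤ ENat.card (F ≃ₐ[k] F) := by
  classical
  have h2k : (2 : k) = 0 := by
    have h2 : ((2 : ℕ) : k) = 0 := (CharP.cast_eq_zero_iff k 2 2).2 dvd_rfl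
    exact_mod_cast h2
  have h2F : (2 : F) = 0 := by
    have h3 : algebraMap k F 2 = 0 := by rw [h2k, map_zero]
    rwa [map_ofNat] at h3
  have : CharP F 2 := charP_of_injective_algebraMap (algebraMap k F).injective 2
  have : Fact (Nat.Prime 2) := ⟨Nat.prime_two⟩
  have hQ2 : 2 ∣ 2 ^ e := dvd_pow_self 2 (by omega)
  have hQ0 : 0 < 2 ^ e := by positivity
  have he2 : y ^ 2 - y = x ^ (2 ^ e + 1) := by
    have h1 := he
    rw [rat_poly] at h1
    simpa using h1
  have hc : ∀ b : k, ∃ c : k, c ^ 2 - c = b ^ (2 ^ e + 1) := by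
    intro b
    obtain ⟨w, hw⟩ := IsAlgClosed.exists_root (C 1 * X ^ 2 + C 1 * X + C (b ^ (2 ^ e + 1)) : k[X])
      (by
        rw [degree_quadratic one_ne_zero]
        norm_num)
    refine ⟨w, ?_⟩
    have h1 : w ^ 2 + w + b ^ (2 ^ e + 1) = 0 := by simpa [IsRoot.def] using hw
    linear_combination h1 - (w + b ^ (2 ^ e + 1)) * h2k
  choose c0 hc0 using hc
  let sg : Bool → k := fun b => if b then 1 else 0
  have hsg2 : ∀ b, (sg b) ^ 2 - sg b = 0 := by
    intro b
    cases b <;> simp [sg]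
  have hsginj : ∀ b b', sg b = sg b' → b = b' := by
    intro b b' e'
    cases b <;> cases b' <;> simp [sg] at e' ⊢
  let zz : rootsOfUnity (2 ^ e + 1) k → k := fun z => (z.1 : k)
  have hz : ∀ z, zz z ^ (2 ^ e + 1) = 1 := fun z => (mem_rootsOfUnity' (2 ^ e + 1) z.1).1 z.2
  have hz0 : ∀ z, zz z ≠ 0 := by
    intro z e'
    have := hz z
    rw [e', zero_pow (by omega)] at this
    exact zero_ne_one this
  have hzinj : ∀ z z', zz z = zz z' → z = z' := by
    intro z z' e'
    apply Subtype.ext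
    apply Units.ext
    exact e'
  let bb : Option (rootsOfUnity ((2 ^ e) ^ 2 - 1) k) → k := fun b => b.elim 0 fun u => (u.1 : k)
  have hb : ∀ b, bb b ^ ((2 ^ e) ^ 2) = bb b := by
    intro b
    cases b with
    | none =>
      show (0 : k) ^ ((2 ^ e) ^ 2) = 0
      exact zero_pow (by positivity)
    | some u =>
      show (u.1 : k) ^ ((2 ^ e) ^ 2) = (u.1 : k)
      have h1 : (u.1 : k) ^ ((2 ^ e) ^ 2 - 1) = 1 := (mem_rootsOfUnity' ((2 ^ e) ^ 2 - 1) u.1).1 u.2
      have h2 : (2 ^ e) ^ 2 = (2 ^ e) ^ 2 - 1 + 1 := by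
        have : 0 < (2 ^ e) ^ 2 := by positivity
        omega
      calc (u.1 : k) ^ ((2 ^ e) ^ 2) = (u.1 : k) ^ ((2 ^ e) ^ 2 - 1 + 1) :=
            congrArg (fun m => (u.1 : k) ^ m) h2
        _ = (u.1 : k) := by rw [pow_succ, h1, one_mul]
  have hbinj : ∀ b b', bb b = bb b' → b = b' := by
    intro b b' e'
    cases b with
    | none =>
      cases b' with
      | none => rfl
      | some u => exact absurd (show (0 : k) = (u.1 : k) from e').symm u.1.ne_zero
    | some u =>
      cases b' with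
      | none => exact absurd (show (u.1 : k) = 0 from e') u.1.ne_zero
      | some v =>
        have h1 : (u.1 : k) = (v.1 : k) := e'
        exact congrArg some (Subtype.ext (Units.ext h1))
  -- the images
  let PP : k → k → F := fun z b =>
    ∑ i ∈ Finset.range e, (algebraMap k F (b ^ 2 ^ e * z) * x) ^ (2 ^ i)
  have hP : ∀ z b : k, PP z b ^ 2 + PP z b =
      (algebraMap k F (b ^ 2 ^ e * z) * x) ^ (2 ^ e) - algebraMap k F (b ^ 2 ^ e * z) * x :=
    fun z b => MH_tel h2F _ e
  have hauto : ∀ t : rootsOfUnity (2 ^ e + 1) k × Option (rootsOfUnity ((2 ^ e) ^ 2 - 1) k) × Bool,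
      ∃ s : F ≃ₐ[k] F, s x = algebraMap k F (zz t.1) * x + algebraMap k F (bb t.2.1) ∧
        s y = y + PP (zz t.1) (bb t.2.1) + algebraMap k F (c0 (bb t.2.1) + sg t.2.2) := by
    rintro ⟨z, b, ε⟩
    show ∃ s : F ≃ₐ[k] F, s x = algebraMap k F (zz z) * x + algebraMap k F (bb b) ∧
        s y = y + PP (zz z) (bb b) + algebraMap k F (c0 (bb b) + sg ε)
    have hx' : Transcendental k (algebraMap k F (zz z) * x + algebraMap k F (bb b)) := by
      intro h
      apply trans_mul hx (hz0 z)
      have h1 := h.sub (isAlgebraic_algebraMap (bb b))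
      rwa [add_sub_cancel_right] at h1
    refine auto_gen (irrE (le_refl 1) (by omega : 1 ≤ 2 ^ e + 1)) hx hgen he hx' ?_ ?_
    · rw [eq_top_iff, ← hgen, IntermediateField.adjoin_le_iff]
      set L := IntermediateField.adjoin k
          {algebraMap k F (zz z) * x + algebraMap k F (bb b),
            y + PP (zz z) (bb b) + algebraMap k F (c0 (bb b) + sg ε)} with hL
      have h1 : algebraMap k F (zz z) * x + algebraMap k F (bb b) ∈ L :=
        IntermediateField.subset_adjoin _ _ (Set.mem_insert _ _)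
      have h2 : y + PP (zz z) (bb b) + algebraMap k F (c0 (bb b) + sg ε) ∈ L :=
        IntermediateField.subset_adjoin _ _ (Set.mem_insert_of_mem _ rfl)
      have h3 : algebraMap k F (zz z) * x ∈ L := by
        have h4 := sub_mem h1 (IntermediateField.algebraMap_mem L (bb b))
        rwa [add_sub_cancel_right] at h4
      have hzF : algebraMap k F (zz z) ≠ 0 := (map_ne_zero (algebraMap k F)).2 (hz0 z)
      have hxL : x ∈ L := by
        have h4 := IntermediateField.div_mem _ h3 (IntermediateField.algebraMap_mem L (zz z))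
        rwa [mul_div_cancel_left₀ _ hzF] at h4
      have hPL : PP (zz z) (bb b) ∈ L :=
        sum_mem fun i _ => pow_mem (mul_mem (IntermediateField.algebraMap_mem L _) hxL) _
      have hyL : y ∈ L := by
        have h4 := sub_mem (sub_mem h2 (IntermediateField.algebraMap_mem L (c0 (bb b) + sg ε))) hPL
        rwa [add_sub_cancel_right, add_sub_cancel_right] at h4
      rintro w (rfl | rfl)
      · exact hxL
      · exact hyL
    · rw [rat_poly, map_pow, aeval_X, map_sub, map_pow, aeval_X]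
      have hz' : (algebraMap k F (zz z)) ^ 2 ^ e * algebraMap k F (zz z) = 1 := by
        rw [← pow_succ, ← map_pow, hz, map_one]
      have hb' : ((algebraMap k F (bb b)) ^ 2 ^ e) ^ 2 ^ e = algebraMap k F (bb b) := by
        rw [← pow_mul, ← sq, ← map_pow, hb]
      have hc' : (algebraMap k F (c0 (bb b))) ^ 2 - algebraMap k F (c0 (bb b)) =
          (algebraMap k F (bb b)) ^ 2 ^ e * algebraMap k F (bb b) := by
        rw [← pow_succ, ← map_pow, ← map_pow, ← map_sub, hc0]
      have hs' : (algebraMap k F (sg ε)) ^ 2 - algebraMap k F (sg ε) = 0 := by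
        rw [← map_pow, ← map_sub, hsg2, map_zero]
      have hP' := hP (zz z) (bb b)
      rw [map_mul, map_pow, mul_pow, mul_pow, hb'] at hP'
      have hy' : y ^ 2 - y = x ^ 2 ^ e * x := by rw [he2, pow_succ]
      rw [pow_one 2, pow_succ _ (2 ^ e), add_pow_char_pow, mul_pow, map_add]
      generalize algebraMap k F (zz z) = Z at *
      generalize algebraMap k F (bb b) = B at *
      generalize algebraMap k F (c0 (bb b)) = C' at *
      generalize algebraMap k F (sg ε) = S at *
      generalize PP (zz z) (bb b) = P at *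
      linear_combination hy' + hP' + hc' + hs' - (x ^ 2 ^ e * x) * hz' +
        (y * P + y * C' + y * S + P * C' + P * S + C' * S - P - B ^ 2 ^ e * Z * x) * h2F
  choose s hs using hauto
  have hinj : Function.Injective s := by
    rintro ⟨z, b, ε⟩ ⟨z', b', ε'⟩ hss
    have h1 : algebraMap k F (zz z) * x + algebraMap k F (bb b) =
        algebraMap k F (zz z') * x + algebraMap k F (bb b') := by
      rw [← (hs (z, b, ε)).1, ← (hs (z', b', ε')).1, hss]
    have h3 : y + PP (zz z) (bb b) + algebraMap k F (c0 (bb b) + sg ε) =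
        y + PP (zz z') (bb b') + algebraMap k F (c0 (bb b') + sg ε') := by
      rw [← (hs (z, b, ε)).2, ← (hs (z', b', ε')).2, hss]
    have h5 : zz z = zz z' := by
      by_contra hne
      have h6 : zz z - zz z' ≠ 0 := sub_ne_zero.2 hne
      apply trans_mul hx h6
      have h7 : algebraMap k F (zz z - zz z') * x = algebraMap k F (bb b' - bb b) := by
        rw [map_sub, map_sub]
        linear_combination h1
      rw [h7]
      exact isAlgebraic_algebraMap _
    have h6 : bb b = bb b' := by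
      rw [h5] at h1
      exact (algebraMap k F).injective (add_left_cancel h1)
    rw [h5, h6] at h3
    have h7 := (algebraMap k F).injective (add_left_cancel h3)
    have h8 := hsginj _ _ (add_left_cancel h7)
    rw [hzinj _ _ h5, hbinj _ _ h6, h8]
  have ho1 : Odd (2 ^ e + 1) := by
    rw [Nat.odd_iff]
    omega
  have ho2 : Odd ((2 ^ e) ^ 2 - 1) := by
    have h1 : 2 ∣ (2 ^ e) ^ 2 := dvd_pow hQ2 (by norm_num)
    have h2 : 0 < (2 ^ e) ^ 2 := by positivity
    rw [Nat.odd_iff]
    omega
  have hcr1 := card_roots (k := k) ho1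
  have hcr2 := card_roots (k := k) ho2
  have hfin1 : Finite (rootsOfUnity (2 ^ e + 1) k) :=
    Nat.finite_of_card_ne_zero (by rw [hcr1]; omega)
  have hfin2 : Finite (rootsOfUnity ((2 ^ e) ^ 2 - 1) k) :=
    Nat.finite_of_card_ne_zero (by rw [hcr2]; exact ho2.pos.ne')
  have hcard := ENat.card_le_card_of_injective hinj
  rw [ENat.card_eq_coe_natCard (rootsOfUnity (2 ^ e + 1) k ×
    Option (rootsOfUnity ((2 ^ e) ^ 2 - 1) k) × Bool), Nat.card_prod, Nat.card_prod,
    Finite.card_option, hcr1, hcr2, Nat.card_eq_fintype_card (α := Bool), Fintype.card_bool] at hcard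
  refine le_trans ?_ hcard
  have h1 : (2 ^ e) ^ 2 - 1 + 1 = (2 ^ e) ^ 2 := by
    have : 0 < (2 ^ e) ^ 2 := by positivity
    omega
  rw [h1]
  exact_mod_cast le_of_eq (by ring)

end Pool.Agent.Helper22.HL
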