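import Pool.Agent.Helper22.HL.ManyA
import Pool.Agent.Helper22.HL.ManyC
import Pool.Agent.Helper22.HL.ManyE
import Pool.Agent.Helper22.HL.GenA
import Pool.Agent.Helper22.HL.GenC
import Pool.Agent.Helper22.HL.ManyH
import Pool.Agent.Helper22.HL.Arith2

/-!
MP_143e28_ag, project HL (helper22): assembly.
-/

set_option autoImplicit false

namespace Pool.Agent.Helper22.HL

open Polynomial Pool.Agent.Helper54.HY Pool.Agent.Helper54.HZ

theorem boundA.{u} (k : Type u) [Field k] [IsAlgClosed k] [CharP k 2] {g : ℕ} (hg : Even g) :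
    ((4 * g + 4 : ℕ) : ℕ∞) ≤ muTri k 2 g := by
  have ha : Odd (g + 1) := hg.add_one
  obtain ⟨F, i1, i2, x, y, hx, hgen, he⟩ := exists_field k _ _ (irrA (k := k) ha)
  have h1 := manyA ha hx hgen he
  have h2 := presA ha hx hgen he
  rw [Nat.add_sub_cancel] at h2
  have e : 4 * (g + 1) = 4 * g + 4 := by ring
  rw [e] at h1
  exact h1.trans (le_sSup ⟨F, i1, i2, Or.inl ⟨x, y, _, h2⟩, rfl⟩)

theorem boundC.{u} (k : Type u) [Field k] [IsAlgClosed k] [CharP k 2] {g : ℕ} (hg : 2 ≤ g) {a : ℕ}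
    (ha : Odd a) (hag : a ∣ g) (hc : Nat.Coprime a (2 * g / a + 1)) :
    ((4 * g + 2 * a : ℕ) : ℕ∞) ≤ muTri k 2 g := by
  obtain ⟨h1, h2, h3, h4⟩ := deg_data hg ha hag
  obtain ⟨j, t, hj0, hjn, hj, ht⟩ := exists_j h1 h2 hc.symm
  obtain ⟨F, i1, i2, x, y, hx, hgen, he⟩ :=
    exists_field k _ _ (irrC (k := k) (n := 2 * g / a + 1) (a := a) (j := j) (by omega) ha)
  have h5 := manyC h1 ha hj ht hx hgen he
  have h6 := presC h1 h2 ha hj0 hjn hj ht h3 hx hgen he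
  rw [h4] at h5
  exact h5.trans (le_sSup ⟨F, i1, i2, Or.inr (Or.inl ⟨_, x, y, _, h6⟩), rfl⟩)

theorem boundE.{u} (k : Type u) [Field k] [IsAlgClosed k] [CharP k 2] {g : ℕ} {s : ℕ}
    (hs : 1 ≤ s) (hsg : 2 ^ s - 1 ∣ g) :
    ((2 ^ (s + 1) * g + 2 ^ s * (2 ^ s - 1) : ℕ) : ℕ∞) ≤ muTri k 2 g := by
  obtain ⟨c, rfl⟩ := hsg
  have hm : Odd (2 * c + 1) := odd_two_mul_add_one c
  have hq : 1 ≤ 2 ^ s := Nat.one_le_two_pow
  obtain ⟨F, i1, i2, x, y, hx, hgen, he⟩ :=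
    exists_field k _ _ (irrE (k := k) (m := 2 * c + 1) hs (by omega))
  have h5 := manyE hs hm hx hgen he
  have hdeg : (X ^ (2 * c + 1) : k[X]).natDegree = 2 * c + 1 := natDegree_X_pow _
  have h6 : PresE k F 2 s ((2 ^ s - 1) * c) x y (X ^ (2 * c + 1)) := by
    refine ⟨hs, hx, hgen, ?_, ?_, ?_⟩
    · rw [hdeg]
      exact (Nat.coprime_two_left).2 hm
    · rw [rat_poly] at he
      rw [← he]
      simp
    · rw [hdeg]
      simp only [Nat.add_sub_cancel]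
      ring
  have h7 : 2 ^ s * ((2 ^ s - 1) * (2 * c + 1)) = 2 ^ (s + 1) * ((2 ^ s - 1) * c) + 2 ^ s * (2 ^ s - 1) := by
    rw [pow_succ]
    ring
  rw [h7] at h5
  exact h5.trans (le_sSup ⟨F, i1, i2, Or.inr (Or.inr ⟨s, x, y, _, h6⟩), rfl⟩)

theorem bound3.{u} (k : Type u) [Field k] [IsAlgClosed k] [CharP k 2] {g : ℕ} (h3 : 3 ∣ g) :
    ((8 * g + 12 : ℕ) : ℕ∞) ≤ muTri k 2 g := by
  have := boundE k (g := g) (s := 2) (by norm_num) (by simpa using h3)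
  simpa using this

/-- powers of 2 -/
theorem boundH.{u} (k : Type u) [Field k] [IsAlgClosed k] [CharP k 2] {g e : ℕ} (he : 1 ≤ e) (hg : g = 2 ^ e) :
    ((8 * g ^ 2 * (2 * g + 1) : ℕ) : ℕ∞) ≤ muTri k 2 g := by
  subst hg
  obtain ⟨F, i1, i2, x, y, hx, hgen, hxy⟩ :=
    exists_field k _ _ (irrE (k := k) (s := 1) (m := 2 ^ (e + 1) + 1) le_rfl (Nat.le_add_left 1 _))
  have h5 := manyH (e := e + 1) (by omega) hx hgen hxy
  have hdeg : (X ^ (2 ^ (e + 1) + 1) : k[X]).natDegree = 2 ^ (e + 1) + 1 := natDegree_X_pow _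
  have hq : 2 ^ (e + 1) = 2 * 2 ^ e := by rw [pow_succ]; ring
  have h6 : PresE k F 2 1 (2 ^ e) x y (X ^ (2 ^ (e + 1) + 1)) := by
    refine ⟨le_rfl, hx, hgen, ?_, ?_, ?_⟩
    · rw [hdeg, hq]
      exact (Nat.coprime_two_left).2 (odd_two_mul_add_one _)
    · rw [rat_poly] at hxy
      rw [← hxy]
      simp
    · rw [hdeg, hq]
      simp
  have h7 : 2 * (2 ^ (e + 1)) ^ 2 * (2 ^ (e + 1) + 1) = 8 * (2 ^ e) ^ 2 * (2 * 2 ^ e + 1) := by
    rw [hq]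
    ring
  rw [h7] at h5
  exact h5.trans (le_sSup ⟨F, i1, i2, Or.inr (Or.inr ⟨1, x, y, _, h6⟩), rfl⟩)

/-- every genus -/
theorem bound4.{u} (k : Type u) [Field k] [IsAlgClosed k] [CharP k 2] {g : ℕ} (hg : 2 ≤ g) :
    ((4 * g + 4 : ℕ) : ℕ∞) ≤ muTri k 2 g := by
  rcases Nat.even_or_odd g with he | ho
  · exact boundA k he
  · by_cases h3 : 3 ∣ g
    · refine le_trans ?_ (bound3 k h3)
      exact_mod_cast (by omega : 4 * g + 4 ≤ 8 * g + 12)
    · refine le_trans ?_ (boundC k hg ho dvd_rfl ?_)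
      · exact_mod_cast (by omega : 4 * g + 4 ≤ 4 * g + 2 * g)
      · have e : 2 * g / g + 1 = 3 := by
          rw [Nat.mul_div_cancel _ (by omega)]
        rw [e]
        exact ((Nat.Prime.coprime_iff_not_dvd Nat.prime_three).2 h3).symm

end Pool.Agent.Helper22.HL
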