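import Pool.Agent.Helper22.HL.Defs

/-!
MP_143e28_ag, project HL (helper22): `Y ^ 2 - Y = 1 / (X ^ a + 1)` is irreducible over `k(X)` (`a` odd, characteristic 2).

Degree 2: no root (`irreducible_of_degree_le_three_of_not_isRoot`; compare `Ex_irr` in `Helper22/HB/Ex.lean`).  `b ^ 2 - b = 1 / P`, `P = X ^ a + 1`:
`c = P b` satisfies `c ^ 2 - P c = P`, so it is integral over `k[X]`: `c` a polynomial (`IsIntegrallyClosed.isIntegral_iff`).  `P ∣ c ^ 2`, `P` is squarefree
(`X ^ a - 1` separable, `a ≠ 0` in `k`), so `c = P d` (`Squarefree.dvd_of_squarefree_of_mul_dvd_mul_right` / `UniqueFactorizationMonoid.dvd_pow_iff_dvd_of_squarefree`),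
`P (d ^ 2 - d) = 1`: `P` is a unit, but its degree is `a > 0`.
-/

set_option autoImplicit false

namespace Pool.Agent.Helper22.HL

open Polynomial Pool.Agent.Helper54.HY Pool.Agent.Helper54.HZ

theorem irrA {k : Type*} [Field k] [CharP k 2] {a : ℕ} (ha : Odd a) :
    Irreducible (eqn (X ^ 2 - X) (algebraMap k[X] (RatFunc k) (X ^ a + 1))⁻¹) := by
  obtain ⟨P, hP⟩ : ∃ P : k[X], P = X ^ a + 1 := ⟨_, rfl⟩
  rw [← hP]
  have ha0 : a ≠ 0 := by
    rintro rfl
    simp at ha
  have hPd : P.natDegree = a := by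
    rw [hP]
    exact natDegree_X_pow_add_C (n := a) (r := (1 : k))
  have hP0 : P ≠ 0 := by
    rintro rfl
    rw [natDegree_zero] at hPd
    exact ha0 hPd.symm
  have hak : (a : k) ≠ 0 := by
    intro h
    rw [CharP.cast_eq_zero_iff k 2] at h
    exact (Nat.not_even_iff_odd.2 ha) (even_iff_two_dvd.2 h)
  have hsq : Squarefree P := by
    have h1 : (X ^ a - C (-1) : k[X]).Separable :=
      separable_X_pow_sub_C (-1) hak (neg_ne_zero.2 one_ne_zero)
    have h2 : (X ^ a - C (-1) : k[X]) = P := by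
      rw [hP]
      simp
    rw [h2] at h1
    exact h1.squarefree
  have hPr : algebraMap k[X] (RatFunc k) P ≠ 0 := by
    intro h
    exact hP0 ((map_eq_zero_iff _ (RatFunc.algebraMap_injective k)).1 h)
  obtain ⟨r, hr⟩ : ∃ r, r = (algebraMap k[X] (RatFunc k) P)⁻¹ := ⟨_, rfl⟩
  rw [← hr]
  have hE : eqn (X ^ 2 - X : k[X]) r = X ^ 2 - X - C r := by
    unfold eqn
    rw [Polynomial.map_sub, Polynomial.map_pow, map_X]
  rw [hE]
  have hdeg : (X ^ 2 - X - C r : (RatFunc k)[X]).natDegree = 2 := by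
    compute_degree!
  refine irreducible_of_degree_le_three_of_not_isRoot ?_ ?_
  · rw [hdeg]
    simp
  · intro b hb
    have hb' : b ^ 2 - b = r := by
      have h1 : eval b (X ^ 2 - X - C r : (RatFunc k)[X]) = 0 := hb
      rw [eval_sub, eval_sub, eval_pow, eval_X, eval_C] at h1
      exact sub_eq_zero.1 h1
    obtain ⟨c', hc'⟩ : ∃ c', c' = algebraMap k[X] (RatFunc k) P * b := ⟨_, rfl⟩
    have hq : c' ^ 2 - algebraMap k[X] (RatFunc k) P * c' = algebraMap k[X] (RatFunc k) P := by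
      have h1 : c' ^ 2 - algebraMap k[X] (RatFunc k) P * c' =
          algebraMap k[X] (RatFunc k) P * (algebraMap k[X] (RatFunc k) P * (b ^ 2 - b)) := by
        rw [hc']
        ring
      rw [h1, hb', hr, mul_inv_cancel₀ hPr, mul_one]
    have hint : IsIntegral k[X] c' := by
      refine ⟨X ^ 2 - C P * X - C P, ?_, ?_⟩
      · have h1 : (X ^ 2 - C P * X - C P : k[X][X]) = X ^ 2 - (C P * X + C P) := by ring
        rw [h1]
        refine monic_X_pow_sub ?_
        refine lt_of_le_of_lt (degree_linear_le (a := P) (b := P)) ?_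
        exact_mod_cast (by norm_num : (1 : ℕ) < 2)
      · rw [eval₂_sub, eval₂_sub, eval₂_mul, eval₂_pow, eval₂_X, eval₂_C, hq, sub_self]
    obtain ⟨c, hc⟩ := IsIntegrallyClosed.isIntegral_iff.1 hint
    rw [← hc, ← map_pow, ← map_mul, ← map_sub] at hq
    have h1 : c ^ 2 - P * c = P := RatFunc.algebraMap_injective k hq
    have h2 : P ∣ c ^ 2 := ⟨c + 1, by linear_combination h1⟩
    have h3 : P ∣ c := (hsq.dvd_pow_iff_dvd two_ne_zero).1 h2
    obtain ⟨d, hd⟩ := h3
    have h4 : P * (P * (d ^ 2 - d)) = P * 1 := by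
      rw [hd] at h1
      linear_combination h1
    have h5 : P * (d ^ 2 - d) = 1 := mul_left_cancel₀ hP0 h4
    have h6 : IsUnit P := IsUnit.of_mul_eq_one _ h5
    have h7 := natDegree_eq_zero_of_isUnit h6
    rw [hPd] at h7
    exact ha0 h7

end Pool.Agent.Helper22.HL
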