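import Pool.Agent.Helper22.HL.Defs

/-!
MP_143e28_ag, project HL (helper22): the function field of `Φ (y) = r (x)`, and automorphisms from solutions of the equation.

This is `Helper22/HB/Ex.lean` (`Ex_trans`, `Ex_eqn`, `Ex_gen`, `Ex_equiv`, `auto_of2`) / `Helper28/HA/C1.lean` for a general
equation: `F = AdjoinRoot (eqn Φ r)`, `x` = image of `RatFunc.X`, `y` = root; `rat hx : RatFunc k →ₐ[k] F` (`Helper54/HY/Deg.lean`) is the
embedding `X ↦ x` (unique: `rat_X`; two `k`-algebra homomorphisms from `RatFunc k` which agree at `X` are equal).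
`auto_gen`: both `(x, y)` and `(x', y')` give isomorphisms `AdjoinRoot (eqn Φ r) ≃ F`.
-/

set_option autoImplicit false

namespace Pool.Agent.Helper22.HL

open Polynomial Pool.Agent.Helper54.HY Pool.Agent.Helper54.HZ

/-- `k`-homomorphisms from `k(X)` which agree at `X` are equal -/
theorem Lift_ext {k F : Type*} [Field k] [Field F] [Algebra k F] (i j : RatFunc k →ₐ[k] F)
    (h : i RatFunc.X = j RatFunc.X) : i = j := by
  have hp : ∀ p : k[X], i (algebraMap k[X] (RatFunc k) p) = j (algebraMap k[X] (RatFunc k) p) := by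
    intro p
    have h4 : algebraMap k[X] (RatFunc k) p = aeval RatFunc.X p := by
      rw [← RatFunc.algebraMap_X, aeval_algebraMap_apply, aeval_X_left_apply]
    rw [h4, ← aeval_algHom_apply, ← aeval_algHom_apply, h]
  refine AlgHom.ext fun c => ?_
  rw [← RatFunc.num_div_denom c, map_div₀, map_div₀, hp, hp]

theorem Lift_eqn {k : Type*} [Field k] (Φ : k[X]) (r : RatFunc k) :
    aeval (AdjoinRoot.root (eqn Φ r)) Φ = AdjoinRoot.of (eqn Φ r) r := by
  have h1 : AdjoinRoot.mk (eqn Φ r) (eqn Φ r) = 0 := AdjoinRoot.mk_self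
  have h2 : AdjoinRoot.mk (eqn Φ r) (eqn Φ r)
      = AdjoinRoot.mk (eqn Φ r) (Φ.map (algebraMap k (RatFunc k))) - AdjoinRoot.of (eqn Φ r) r := by
    rw [show AdjoinRoot.mk (eqn Φ r) (eqn Φ r)
      = AdjoinRoot.mk (eqn Φ r) (Φ.map (algebraMap k (RatFunc k)) - C r) from rfl,
      map_sub, AdjoinRoot.mk_C]
  rw [h1] at h2
  have h3 := (sub_eq_zero.1 h2.symm)
  rw [← h3, ← AdjoinRoot.aeval_eq, aeval_map_algebraMap]

theorem Lift_gen {k : Type*} [Field k] {Φ : k[X]} {r : RatFunc k} (hI : Fact (Irreducible (eqn Φ r))) :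
    IntermediateField.adjoin k {AdjoinRoot.of (eqn Φ r) RatFunc.X, AdjoinRoot.root (eqn Φ r)} = ⊤ := by
  set E := IntermediateField.adjoin k
    {AdjoinRoot.of (eqn Φ r) RatFunc.X, AdjoinRoot.root (eqn Φ r)} with hE
  have hx : AdjoinRoot.of (eqn Φ r) RatFunc.X ∈ E :=
    IntermediateField.subset_adjoin _ _ (by simp)
  have hy : AdjoinRoot.root (eqn Φ r) ∈ E := IntermediateField.subset_adjoin _ _ (by simp)
  have h1 : ∀ c : RatFunc k, AdjoinRoot.of (eqn Φ r) c ∈ E := by
    intro c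
    have hc : c ∈ IntermediateField.adjoin k {(RatFunc.X : RatFunc k)} := by
      rw [RatFunc.adjoin_X]; trivial
    have hle : IntermediateField.adjoin k {(RatFunc.X : RatFunc k)}
        ≤ E.comap (IsScalarTower.toAlgHom k (RatFunc k) (AdjoinRoot (eqn Φ r))) := by
      rw [IntermediateField.adjoin_le_iff]
      rintro _ rfl
      exact hx
    exact hle hc
  refine eq_top_iff.2 ?_
  rintro z -
  induction z using AdjoinRoot.induction_on with
  | ih p =>
    induction p using Polynomial.induction_on' with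
    | add p q hp hq => rw [map_add]; exact add_mem hp hq
    | monomial n c =>
      rw [← C_mul_X_pow_eq_monomial, map_mul, map_pow, AdjoinRoot.mk_C, AdjoinRoot.mk_X]
      exact mul_mem (h1 c) (pow_mem hy n)

theorem exists_field.{u} (k : Type u) [Field k] (Φ : k[X]) (r : RatFunc k) (hI : Irreducible (eqn Φ r)) :
    ∃ (F : Type u) (_ : Field F) (_ : Algebra k F) (x y : F) (hx : Transcendental k x),
      IntermediateField.adjoin k {x, y} = ⊤ ∧ aeval y Φ = rat hx r := by
  have hF : Fact (Irreducible (eqn Φ r)) := ⟨hI⟩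
  have ht : Transcendental k (AdjoinRoot.of (eqn Φ r) RatFunc.X) := by
    have h : Transcendental k (algebraMap (RatFunc k) (AdjoinRoot (eqn Φ r)) RatFunc.X) :=
      (transcendental_algebraMap_iff (algebraMap (RatFunc k) (AdjoinRoot (eqn Φ r))).injective).2
        RatFunc.transcendental_X
    exact h
  refine ⟨AdjoinRoot (eqn Φ r), inferInstance, inferInstance, AdjoinRoot.of (eqn Φ r) RatFunc.X,
    AdjoinRoot.root (eqn Φ r), ht, Lift_gen hF, ?_⟩
  rw [Lift_eqn]
  have h1 : rat ht = IsScalarTower.toAlgHom k (RatFunc k) (AdjoinRoot (eqn Φ r)) := by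
    refine Lift_ext _ _ ?_
    rw [rat_X]
    rfl
  rw [h1]
  rfl

/-- the function field of `Φ (y) = r (x)` is unique -/
theorem Lift_equiv {k F : Type*} [Field k] [Field F] [Algebra k F] {Φ : k[X]} {r : RatFunc k}
    (hI : Fact (Irreducible (eqn Φ r))) {x y : F} (hx : Transcendental k x)
    (hgen : IntermediateField.adjoin k {x, y} = ⊤) (he : aeval y Φ = rat hx r) :
    ∃ e : AdjoinRoot (eqn Φ r) ≃ₐ[k] F, e (AdjoinRoot.of (eqn Φ r) RatFunc.X) = x ∧
      e (AdjoinRoot.root (eqn Φ r)) = y := by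
  have hroot : (eqn Φ r).eval₂ (rat hx : RatFunc k →+* F) y = 0 := by
    rw [eqn, eval₂_sub, eval₂_map, eval₂_C, AlgHom.comp_algebraMap]
    change aeval y Φ - rat hx r = 0
    rw [he, sub_self]
  set φ : AdjoinRoot (eqn Φ r) →ₐ[k] F := AdjoinRoot.liftAlgHom (eqn Φ r) (rat hx) y hroot with hφ
  have h1 : φ (AdjoinRoot.of (eqn Φ r) RatFunc.X) = x := by
    rw [hφ, AdjoinRoot.liftAlgHom_of, rat_X]
  have h2 : φ (AdjoinRoot.root (eqn Φ r)) = y := by rw [hφ, AdjoinRoot.liftAlgHom_root]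
  have hsurj : Function.Surjective φ := by
    intro z
    have hz : z ∈ IntermediateField.adjoin k {x, y} := by rw [hgen]; trivial
    have hle : IntermediateField.adjoin k {x, y} ≤ φ.fieldRange := by
      rw [IntermediateField.adjoin_le_iff]
      rintro w (rfl | rfl)
      · exact ⟨_, h1⟩
      · exact ⟨_, h2⟩
    exact hle hz
  have hbij : Function.Bijective φ := ⟨φ.toRingHom.injective, hsurj⟩
  exact ⟨AlgEquiv.ofBijective φ hbij, h1, h2⟩

theorem auto_gen {k F : Type*} [Field k] [Field F] [Algebra k F] {Φ : k[X]} {r : RatFunc k}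
    (hI : Irreducible (eqn Φ r)) {x y : F} (hx : Transcendental k x)
    (hgen : IntermediateField.adjoin k {x, y} = ⊤) (he : aeval y Φ = rat hx r)
    {x' y' : F} (hx' : Transcendental k x') (hgen' : IntermediateField.adjoin k {x', y'} = ⊤)
    (he' : aeval y' Φ = rat hx' r) : ∃ s : F ≃ₐ[k] F, s x = x' ∧ s y = y' := by
  obtain ⟨e1, hx1, hy1⟩ := Lift_equiv ⟨hI⟩ hx hgen he
  obtain ⟨e2, hx2, hy2⟩ := Lift_equiv ⟨hI⟩ hx' hgen' he'
  refine ⟨e1.symm.trans e2, ?_, ?_⟩
  · rw [AlgEquiv.trans_apply, ← hx1, AlgEquiv.symm_apply_apply, hx2]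
  · rw [AlgEquiv.trans_apply, ← hy1, AlgEquiv.symm_apply_apply, hy2]

end Pool.Agent.Helper22.HL
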