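import Pool.Agent.Helper22.HL.Lift
import Pool.Agent.Helper22.HL.Tr
import Pool.Agent.Helper22.HL.IrrA

/-!
MP_143e28_ag, project HL (helper22): the curve `y ^ 2 - y = 1 / (x ^ a + 1)` (`a` odd, characteristic 2) has at least `4 a` automorphisms.

For `z ^ a = 1` (`a` of them, `card_roots`) and `e = 0, 1` (`Bool`): `(x, y) ↦ (z x, y + e)`, and, with `w ^ 2 + w = 1` (`IsAlgClosed`), `(x, y) ↦ (z / x, y + w + e)`:
`1 / ((z / x) ^ a + 1) = x ^ a / (x ^ a + 1) = 1 + 1 / (x ^ a + 1)` (`x ^ a + 1 ≠ 0`).  `auto_gen` with `trans_mul`, `trans_div`, `adjoin_mul`, `adjoin_div` (`s = 0`), `rat_inv`.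
They are distinct: `z x = z' / x` is impossible (`sq_ne`).  Compare `Helper28/HA/C2.lean` (`many_one`) and `Helper22/HB/Many.lean`.
Injective map from `rootsOfUnity a k × Bool × Bool`: `ENat.card` (`ENat.card_le_card_of_injective`, `ENat.card_eq_coe_natCard` / `ENat.card_eq_coe_fintype_card`).
-/

set_option autoImplicit false

namespace Pool.Agent.Helper22.HL

open Polynomial Pool.Agent.Helper54.HY Pool.Agent.Helper54.HZ

theorem manyA {k F : Type*} [Field k] [IsAlgClosed k] [CharP k 2] [Field F] [Algebra k F] {a : ℕ}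
    (ha : Odd a) {x y : F} (hx : Transcendental k x) (hgen : IntermediateField.adjoin k {x, y} = ⊤)
    (he : aeval y (X ^ 2 - X : k[X]) = rat hx (algebraMap k[X] (RatFunc k) (X ^ a + 1))⁻¹) :
    ((4 * a : ℕ) : ℕ∞) ≤ ENat.card (F ≃ₐ[k] F) := by
  classical
  have ha0 : a ≠ 0 := by
    rintro rfl
    simp at ha
  have h2k : (2 : k) = 0 := by
    have h2 : ((2 : ℕ) : k) = 0 := (CharP.cast_eq_zero_iff k 2 2).2 dvd_rfl
    exact_mod_cast h2
  have h2F : (2 : F) = 0 := by
    have h3 : algebraMap k F 2 = 0 := by rw [h2k, map_zero]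
    rwa [map_ofNat] at h3
  have hx0 : x ≠ 0 := by
    rintro rfl
    exact hx isAlgebraic_zero
  have hxa : x ^ a + 1 ≠ 0 := by
    intro h
    have h1 := (transcendental_iff.1 hx) (X ^ a + C 1) (by simpa using h)
    exact (monic_X_pow_add_C (1 : k) ha0).ne_zero h1
  rw [rat_inv] at he
  have he1 : y ^ 2 - y = 1 / (x ^ a + 1) := by
    rw [← he]
    simp
  obtain ⟨w, hw⟩ : ∃ w : k, w ^ 2 - w = 1 := by
    obtain ⟨w, hw⟩ := IsAlgClosed.exists_root (X ^ 2 + X + C 1 : k[X]) (by
      rw [show (X ^ 2 + X + C 1 : k[X]) = C 1 * X ^ 2 + C 1 * X + C 1 by simp,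
        degree_quadratic one_ne_zero]
      norm_num)
    refine ⟨w, ?_⟩
    have h1 : w ^ 2 + w + 1 = 0 := by simpa [IsRoot.def] using hw
    linear_combination h1 - (w + 1) * h2k
  have hwF : (algebraMap k F w) ^ 2 - algebraMap k F w = 1 := by
    rw [← map_pow, ← map_sub, hw, map_one]
  let sg : Bool → k := fun b => if b then 1 else 0
  have hsg2 : ∀ b, (algebraMap k F (sg b)) ^ 2 - algebraMap k F (sg b) = 0 := by
    intro b
    cases b <;> simp [sg]
  have hsginj : ∀ b b', algebraMap k F (sg b) = algebraMap k F (sg b') → b = b' := by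
    intro b b' e
    have e' := (algebraMap k F).injective e
    cases b <;> cases b' <;> simp [sg] at e' ⊢
  let zz : rootsOfUnity a k → k := fun z => (z.1 : k)
  have hz : ∀ z, zz z ^ a = 1 := fun z => (mem_rootsOfUnity' a z.1).1 z.2
  have hz0 : ∀ z, zz z ≠ 0 := by
    intro z e
    have := hz z
    rw [e, zero_pow ha0] at this
    exact zero_ne_one this
  have hzF : ∀ z, (algebraMap k F (zz z)) ^ a = 1 := fun z => by
    rw [← map_pow, hz, map_one]
  have hzF0 : ∀ z, algebraMap k F (zz z) ≠ 0 := fun z =>
    (map_ne_zero (algebraMap k F)).2 (hz0 z)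
  have hzinj : ∀ z z', algebraMap k F (zz z) = algebraMap k F (zz z') → z = z' := by
    intro z z' e
    apply Subtype.ext
    apply Units.ext
    exact (algebraMap k F).injective e
  -- the images
  let X' : rootsOfUnity a k × Bool × Bool → F := fun t =>
    if t.2.2 then algebraMap k F (zz t.1) * x else algebraMap k F (zz t.1) / x
  let Y' : rootsOfUnity a k × Bool × Bool → F := fun t =>
    if t.2.2 then algebraMap k F 1 * y + algebraMap k F (sg t.2.1)
    else algebraMap k F 1 * y / x ^ 0 + algebraMap k F (w + sg t.2.1)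
  have hauto : ∀ t, ∃ s : F ≃ₐ[k] F, s x = X' t ∧ s y = Y' t := by
    rintro ⟨z, e, b⟩
    cases b
    · simp only [X', Y', Bool.false_eq_true, if_false]
      refine auto_gen (irrA ha) hx hgen (by rw [rat_inv, ← he]) (trans_div hx (hz0 z))
        (adjoin_div hgen hx0 (hz0 z) one_ne_zero 0) ?_
      rw [rat_inv, div_pow, hzF]
      have h1 : (1 : F) / (1 / x ^ a + 1) = 1 - 1 / (x ^ a + 1) := by
        have h2 : x ^ a ≠ 0 := pow_ne_zero _ hx0
        have h3 : (1 : F) / x ^ a + 1 = (x ^ a + 1) / x ^ a := by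
          field_simp
          ring
        rw [h3]
        field_simp
        ring
      rw [h1, ← he1]
      simp only [map_sub, map_pow, aeval_X, map_one, one_mul, pow_zero, div_one, map_add]
      have h4 := hsg2 e
      linear_combination hwF + h4 + (y * (algebraMap k F w + algebraMap k F (sg e)) +
        algebraMap k F w * algebraMap k F (sg e) + y ^ 2 - y) * h2F
    · simp only [X', Y', if_true]
      refine auto_gen (irrA ha) hx hgen (by rw [rat_inv, ← he]) (trans_mul hx (hz0 z))
        (adjoin_mul hgen (hz0 z) one_ne_zero) ?_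
      rw [rat_inv, mul_pow, hzF, one_mul, ← he1]
      simp only [map_sub, map_pow, aeval_X, map_one, one_mul]
      have h4 := hsg2 e
      linear_combination h4 + y * algebraMap k F (sg e) * h2F
  choose s hs using hauto
  have hinj : Function.Injective s := by
    rintro ⟨z, e, b⟩ ⟨z', e', b'⟩ hss
    have h1 : X' (z, e, b) = X' (z', e', b') := by rw [← (hs _).1, ← (hs _).1, hss]
    have h3 : Y' (z, e, b) = Y' (z', e', b') := by rw [← (hs _).2, ← (hs _).2, hss]
    cases b <;> cases b'
    · simp only [X', Bool.false_eq_true, if_false] at h1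
      simp only [Y', Bool.false_eq_true, if_false, map_add] at h3
      have h5 : z = z' := hzinj _ _ ((div_left_inj' hx0).1 h1)
      have h6 : e = e' := hsginj _ _ (by linear_combination h3)
      rw [h5, h6]
    · exfalso
      simp only [X', Bool.false_eq_true, if_false, if_true] at h1
      refine sq_ne hx (zz z / zz z') ?_
      rw [map_div₀, eq_div_iff (hzF0 z')]
      rw [div_eq_iff hx0] at h1
      linear_combination -h1
    · exfalso
      simp only [X', Bool.false_eq_true, if_false, if_true] at h1
      refine sq_ne hx (zz z' / zz z) ?_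
      rw [map_div₀, eq_div_iff (hzF0 z)]
      rw [eq_div_iff hx0] at h1
      linear_combination h1
    · simp only [X', if_true] at h1
      simp only [Y', if_true] at h3
      have h5 : z = z' := hzinj _ _ (mul_right_cancel₀ hx0 h1)
      have h6 : e = e' := hsginj _ _ (by linear_combination h3)
      rw [h5, h6]
  have hcr := card_roots (k := k) ha
  have hfin : Finite (rootsOfUnity a k) := Nat.finite_of_card_ne_zero (by rw [hcr]; exact ha0)
  have hcard := ENat.card_le_card_of_injective hinj
  rw [ENat.card_eq_coe_natCard (rootsOfUnity a k × Bool × Bool), Nat.card_prod, Nat.card_prod,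
    hcr, Nat.card_eq_fintype_card (α := Bool), Fintype.card_bool] at hcard
  refine le_trans ?_ hcard
  exact_mod_cast (by omega : 4 * a ≤ a * (2 * 2))

end Pool.Agent.Helper22.HL
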