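import Pool.Agent.Helper22.HL.Fin

/-!
MP_143e28_ag, project HL (helper22, after helper96): the genera in which the bound `4 g + B` is possible.
-/

set_option autoImplicit false

namespace Pool.Agent.Helper22.HL

private theorem Obs_le {c d : ℕ} {m : ℕ∞} (h : (c : ℕ∞) ≤ m) (h' : m ≤ (d : ℕ∞)) : c ≤ d := by
  exact_mod_cast h.trans h'

theorem obs.{u} (k : Type u) [Field k] [IsAlgClosed k] [CharP k 2] {g B : ℕ} (hg : 2 ≤ g)
    (h : muTri k 2 g ≤ ((4 * g + B : ℕ) : ℕ∞)) :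
    (B < 2 * g → Even g ∧ ¬ 3 ∣ g ∧ ∀ e : ℕ, g ≠ 2 ^ e) ∧
      ∀ a : ℕ, Odd a → a ∣ g → B < 2 * a → ¬ Nat.Coprime a (2 * g / a + 1) := by
  have hcop : ∀ a : ℕ, Odd a → a ∣ g → B < 2 * a → ¬ Nat.Coprime a (2 * g / a + 1) := by
    intro a ha hag hba hc
    have h5 := Obs_le (boundC k hg ha hag hc) h
    omega
  refine ⟨fun hlt => ?_, hcop⟩
  have h3g : ¬ 3 ∣ g := by
    intro h3
    have h5 := Obs_le (bound3 k h3) h
    omega
  refine ⟨?_, h3g, ?_⟩
  · rw [← Nat.not_odd_iff_even]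
    intro ho
    refine hcop g ho dvd_rfl hlt ?_
    rw [Nat.mul_div_cancel _ (by omega)]
    exact ((Nat.Prime.coprime_iff_not_dvd Nat.prime_three).2 h3g).symm
  · intro e he
    have he1 : 1 ≤ e := by
      rcases Nat.eq_zero_or_pos e with h | h
      · rw [h, pow_zero] at he
        omega
      · exact h
    have h5 := Obs_le (boundH k he1 he) h
    have h6 : 6 * g ≤ 8 * g ^ 2 * (2 * g + 1) := by nlinarith
    omega

end Pool.Agent.Helper22.HL
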